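import Mathlib
import Pool.Agent.R389.NilRed
import Pool.Agent.R389.Orb

/-!
# The part of a monomial character over an invariant linear character of a normal subgroup
-/

set_option autoImplicit false
set_option linter.unusedSectionVars false

namespace Run7.h988.DR

open Pool.Agent.R389 Pool.Agent.H302R2 Pool.Agent.H302R3 Pool.Agent.H541R3.ART Pool.Agent.W446.AS Subgroup

section glue

variable {G M : Type} [Group G] [CommGroup M]

/-- gluing linear characters of a subgroup and of a normal subgroup -/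
lemma glue (K : Subgroup G) [K.Normal] (U : Subgroup G) (ψ : U →* M) (μ : K →* M)
    (hμ : ∀ (g : G) (k : K), μ (MulAut.conjNormal g k) = μ k)
    (h : ∀ (x : G) (hU : x ∈ U) (hK : x ∈ K), ψ ⟨x, hU⟩ = μ ⟨x, hK⟩) :
    ∃ κ : (U ⊔ K : Subgroup G) →* M, (∀ (x : G) (hx : x ∈ U), κ ⟨x, mem_sup_left hx⟩ = ψ ⟨x, hx⟩) ∧
      ∀ (k : G) (hk : k ∈ K), κ ⟨k, mem_sup_right hk⟩ = μ ⟨k, hk⟩ := by
  classical
  have hex : ∀ z : (U ⊔ K : Subgroup G), ∃ u : U, (u : G)⁻¹ * z ∈ K := by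
    rintro ⟨z, hz⟩
    obtain ⟨x, hx, k, hk, rfl⟩ := mem_sup_of_normal_right.mp hz
    exact ⟨⟨x, hx⟩, by simpa using hk⟩
  choose c hc using hex
  have hwd : ∀ (z : (U ⊔ K : Subgroup G)) (u : U) (hu : (u : G)⁻¹ * z ∈ K),
      ψ u * μ ⟨(u : G)⁻¹ * z, hu⟩ = ψ (c z) * μ ⟨(c z : G)⁻¹ * z, hc z⟩ := by
    intro z u hu
    have h1 : ((u⁻¹ * c z : U) : G) ∈ K := by
      have h2 := mul_mem hu (inv_mem (hc z))
      have h3 : (u : G)⁻¹ * z * ((c z : G)⁻¹ * z)⁻¹ = ((u⁻¹ * c z : U) : G) := by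
        simp only [Subgroup.coe_mul, Subgroup.coe_inv]; group
      rwa [h3] at h2
    have h2 := h _ (u⁻¹ * c z : U).2 h1
    have h3 : (⟨(u : G)⁻¹ * z, hu⟩ : K) = ⟨((u⁻¹ * c z : U) : G), h1⟩ * ⟨(c z : G)⁻¹ * z, hc z⟩ := by
      apply Subtype.ext
      simp only [Subgroup.coe_mul, Subgroup.coe_inv]
      group
    rw [h3, map_mul, ← h2]
    have h4 : ψ (⟨((u⁻¹ * c z : U) : G), (u⁻¹ * c z : U).2⟩ : U) = (ψ u)⁻¹ * ψ (c z) := by
      rw [← map_inv, ← map_mul]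
    rw [h4]
    simp only [← mul_assoc, mul_inv_cancel, one_mul]
  refine ⟨MonoidHom.mk' (fun z => ψ (c z) * μ ⟨(c z : G)⁻¹ * z, hc z⟩) ?_, ?_, ?_⟩
  · intro z w
    have h0 : ((c z * c w : U) : G)⁻¹ * ((z * w : (U ⊔ K : Subgroup G)) : G)
        = ((c w : G)⁻¹ * ((c z : G)⁻¹ * z) * (c w : G)) * ((c w : G)⁻¹ * w) := by
      simp only [Subgroup.coe_mul]
      group
    have h1 : (c w : G)⁻¹ * ((c z : G)⁻¹ * z) * (c w : G) ∈ K := by
      have h2 := (inferInstance : K.Normal).conj_mem _ (hc z) (c w : G)⁻¹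
      rwa [inv_inv] at h2
    have h2 : ((c z * c w : U) : G)⁻¹ * ((z * w : (U ⊔ K : Subgroup G)) : G) ∈ K := by
      rw [h0]
      exact mul_mem h1 (hc w)
    rw [← hwd (z * w) (c z * c w) h2]
    have h3 : (⟨((c z * c w : U) : G)⁻¹ * ((z * w : (U ⊔ K : Subgroup G)) : G), h2⟩ : K)
        = MulAut.conjNormal (c w : G)⁻¹ ⟨(c z : G)⁻¹ * z, hc z⟩ * ⟨(c w : G)⁻¹ * w, hc w⟩ := by
      apply Subtype.ext
      change ((c z * c w : U) : G)⁻¹ * ((z * w : (U ⊔ K : Subgroup G)) : G) =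
        ((MulAut.conjNormal (c w : G)⁻¹ ⟨(c z : G)⁻¹ * z, hc z⟩ : K) : G) * ((c w : G)⁻¹ * w)
      rw [MulAut.conjNormal_apply, inv_inv]
      exact h0
    rw [h3, map_mul, map_mul, hμ]
    exact mul_mul_mul_comm _ _ _ _
  · intro x hx
    have h1 : ((⟨x, hx⟩ : U) : G)⁻¹ * ((⟨x, mem_sup_left hx⟩ : (U ⊔ K : Subgroup G)) : G) ∈ K := by
      simp
    have h2 := hwd ⟨x, mem_sup_left hx⟩ ⟨x, hx⟩ h1
    have h3 : (⟨((⟨x, hx⟩ : U) : G)⁻¹ * ((⟨x, mem_sup_left hx⟩ : (U ⊔ K : Subgroup G)) : G), h1⟩ : K) = 1 := by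
      apply Subtype.ext
      simp
    rw [h3, map_one, mul_one] at h2
    exact h2.symm
  · intro k hk
    have h1 : ((1 : U) : G)⁻¹ * ((⟨k, mem_sup_right hk⟩ : (U ⊔ K : Subgroup G)) : G) ∈ K := by
      simpa using hk
    have h2 := hwd ⟨k, mem_sup_right hk⟩ 1 h1
    have h3 : (⟨((1 : U) : G)⁻¹ * ((⟨k, mem_sup_right hk⟩ : (U ⊔ K : Subgroup G)) : G), h1⟩ : K) = ⟨k, hk⟩ := by
      apply Subtype.ext
      simp
    rw [h3, map_one, one_mul] at h2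
    exact h2.symm

end glue

variable {G : Type} [Group G] [Finite G] {N : Subgroup G} [N.Normal]

/-- the sum over a coset -/
lemma coset_sum [Fintype N] (μ : N →* ℂˣ) (U : Subgroup G) (ψ : U →* ℂˣ) (κ : (U ⊔ N : Subgroup G) →* ℂˣ)
    (h1 : ∀ (x : G) (hx : x ∈ U), κ ⟨x, mem_sup_left hx⟩ = ψ ⟨x, hx⟩)
    (h2 : ∀ (k : G) (hk : k ∈ N), κ ⟨k, mem_sup_right hk⟩ = μ ⟨k, hk⟩) (y : G) :
    ∑ n : N, ext U (fun u => ((ψ u : ℂˣ) : ℂ)) (y * n) * (((μ n)⁻¹ : ℂˣ) : ℂ) =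
      (Nat.card {n : N // (n : G) ∈ U} : ℂ) * ext (U ⊔ N) (fun u => ((κ u : ℂˣ) : ℂ)) y := by
  classical
  by_cases hy : y ∈ U ⊔ N
  · rw [ext_mem _ _ hy]
    obtain ⟨u, hu, m, hm, rfl⟩ := mem_sup_of_normal_right.mp hy
    have h3 : ∀ n : N, ext U (fun u => ((ψ u : ℂˣ) : ℂ)) (u * m * n) * (((μ n)⁻¹ : ℂˣ) : ℂ) =
        if u * m * n ∈ U then ((κ ⟨u * m, hy⟩ : ℂˣ) : ℂ) else 0 := by
      intro n
      split_ifs with h
      · rw [ext_mem _ _ h, ← Units.val_mul, ← h1 _ h]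
        have h4 := h2 n n.2
        have h5 : κ ⟨u * m, hy⟩ * κ ⟨n, mem_sup_right n.2⟩ = κ ⟨u * m * n, mem_sup_left h⟩ := by
          rw [← map_mul]
          rfl
        rw [← h5, h4, mul_inv_cancel_right]
      · rw [ext_not _ _ h, zero_mul]
    rw [Finset.sum_congr rfl (fun n _ => h3 n), ← Finset.sum_filter, Finset.sum_const, nsmul_eq_mul]
    congr 1
    have h6 : (Finset.univ.filter fun n : N => u * m * n ∈ U).card = Nat.card {n : N // (n : G) ∈ U} := by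
      rw [Nat.card_eq_fintype_card, Fintype.card_subtype]
      refine Finset.card_bij (fun n _ => ⟨m, hm⟩ * n) ?_ ?_ ?_
      · intro n hn
        rw [Finset.mem_filter] at hn ⊢
        refine ⟨Finset.mem_univ _, ?_⟩
        have h7 := U.mul_mem (U.inv_mem hu) hn.2
        have h8 : u⁻¹ * (u * m * n) = m * n := by group
        rw [h8] at h7
        exact h7
      · intro n _ n' _ h
        exact mul_left_cancel h
      · intro n hn
        rw [Finset.mem_filter] at hn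
        refine ⟨(⟨m, hm⟩ : N)⁻¹ * n, ?_, by group⟩
        rw [Finset.mem_filter]
        refine ⟨Finset.mem_univ _, ?_⟩
        have h8 : u * m * (((⟨m, hm⟩ : N)⁻¹ * n : N) : G) = u * n := by
          rw [Subgroup.coe_mul, Subgroup.coe_inv]
          group
        rw [h8]
        exact U.mul_mem hu hn.2
    exact_mod_cast h6
  · rw [ext_not _ _ hy, mul_zero]
    refine Finset.sum_eq_zero fun n _ => ?_
    rw [ext_not, zero_mul]
    intro h
    apply hy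
    have h3 : y = y * n * ((n : G))⁻¹ := by group
    rw [h3]
    exact mul_mem (mem_sup_left h) (inv_mem (mem_sup_right n.2))

/-- the orders -/
lemma card_prod (U : Subgroup G) :
    Nat.card {n : N // (n : G) ∈ U} * Nat.card (U ⊔ N : Subgroup G) = Nat.card N * Nat.card U := by
  classical
  have : Fintype G := Fintype.ofFinite G
  have : Fintype N := Fintype.ofFinite N
  have : Fintype U := Fintype.ofFinite U
  have : Fintype (U ⊔ N : Subgroup G) := Fintype.ofFinite _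
  have h1 : ∀ y : G, ∑ n : N, ext U (fun u => (((1 : U →* ℂˣ) u : ℂˣ) : ℂ)) (y * n) * ((((1 : N →* ℂˣ) n)⁻¹ : ℂˣ) : ℂ) =
      (Nat.card {n : N // (n : G) ∈ U} : ℂ) * ext (U ⊔ N) (fun u => (((1 : (U ⊔ N : Subgroup G) →* ℂˣ) u : ℂˣ) : ℂ)) y :=
    fun y => coset_sum 1 U 1 1 (fun _ _ => rfl) (fun _ _ => rfl) y
  have hs : ∀ (H : Subgroup G), ∑ y : G, ext H (fun u => (((1 : H →* ℂˣ) u : ℂˣ) : ℂ)) y = (Nat.card H : ℂ) := by
    intro H
    have : Fintype H := Fintype.ofFinite H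
    have h2 := sum_ext H (fun u => (((1 : H →* ℂˣ) u : ℂˣ) : ℂ)) (fun _ => (1 : ℂ))
    simp only [mul_one] at h2
    rw [h2]
    simp
  have h2 := Finset.sum_congr rfl (fun y (_ : y ∈ (Finset.univ : Finset G)) => h1 y)
  rw [← Finset.mul_sum, hs, Finset.sum_comm] at h2
  have h3 : ∀ n : N, ∑ y : G, ext U (fun u => (((1 : U →* ℂˣ) u : ℂˣ) : ℂ)) (y * n) * ((((1 : N →* ℂˣ) n)⁻¹ : ℂˣ) : ℂ) =
      (Nat.card U : ℂ) := by
    intro n
    rw [← hs U, ← Equiv.sum_comp (Equiv.mulRight (n : G)) (fun y => ext U (fun u => (((1 : U →* ℂˣ) u : ℂˣ) : ℂ)) y)]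
    refine Finset.sum_congr rfl fun y _ => ?_
    simp
  rw [Finset.sum_congr rfl (fun n _ => h3 n), Finset.sum_const, Finset.card_univ, nsmul_eq_mul, ← Nat.card_eq_fintype_card] at h2
  exact_mod_cast h2.symm

lemma part_ind_aux (μ : N →* ℂˣ) (hμ : ∀ (g : G) (n : N), μ (MulAut.conjNormal g n) = μ n) (U : Subgroup G)
    (f : U → ℂ) (g : G) [Fintype G] [Fintype N] :
    part N μ (ind U f) g = (Nat.card N : ℂ)⁻¹ * ((Nat.card U : ℂ)⁻¹ * ∑ x : G, ∑ n : N,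
      ext U f (x⁻¹ * g * x * n) * (((μ n)⁻¹ : ℂˣ) : ℂ)) := by
  rw [part_eq]
  congr 1
  have h1 : ∀ n : N, ind U f (g * n) * (((μ n)⁻¹ : ℂˣ) : ℂ) =
      (Nat.card U : ℂ)⁻¹ * ∑ x : G, ext U f (x⁻¹ * (g * n) * x) * (((μ n)⁻¹ : ℂˣ) : ℂ) := by
    intro n
    rw [ind_eq, mul_assoc, Finset.sum_mul]
  rw [Finset.sum_congr rfl (fun n _ => h1 n), ← Finset.mul_sum, Finset.sum_comm]
  congr 1
  refine Finset.sum_congr rfl fun x _ => ?_
  rw [← Equiv.sum_comp (MulAut.conjNormal x).toEquiv (fun n : N => ext U f (x⁻¹ * (g * n) * x) * (((μ n)⁻¹ : ℂˣ) : ℂ))]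
  refine Finset.sum_congr rfl fun n _ => ?_
  have h2 : x⁻¹ * (g * ((MulAut.conjNormal x n : N) : G)) * x = x⁻¹ * g * x * n := by
    rw [MulAut.conjNormal_apply]
    group
  change ext U f (x⁻¹ * (g * ((MulAut.conjNormal x n : N) : G)) * x) * (((μ (MulAut.conjNormal x n))⁻¹ : ℂˣ) : ℂ) = _
  rw [h2, hμ]

/-- the part of a monomial character, compatible case -/
theorem part_ind (μ : N →* ℂˣ) (hμ : ∀ (g : G) (n : N), μ (MulAut.conjNormal g n) = μ n) (U : Subgroup G) (ψ : U →* ℂˣ)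
    (κ : (U ⊔ N : Subgroup G) →* ℂˣ)
    (h1 : ∀ (x : G) (hx : x ∈ U), κ ⟨x, mem_sup_left hx⟩ = ψ ⟨x, hx⟩)
    (h2 : ∀ (k : G) (hk : k ∈ N), κ ⟨k, mem_sup_right hk⟩ = μ ⟨k, hk⟩) :
    part N μ (ind U fun u => ((ψ u : ℂˣ) : ℂ)) = ind (U ⊔ N) fun u => ((κ u : ℂˣ) : ℂ) := by
  classical
  have : Fintype G := Fintype.ofFinite G
  have : Fintype N := Fintype.ofFinite N
  funext g
  rw [part_ind_aux μ hμ, ind_eq, Finset.sum_congr rfl (fun x _ => coset_sum μ U ψ κ h1 h2 (x⁻¹ * g * x)),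
    ← Finset.mul_sum]
  have h3 : (Nat.card {n : N // (n : G) ∈ U} : ℂ) * Nat.card (U ⊔ N : Subgroup G) = Nat.card N * Nat.card U := by
    exact_mod_cast card_prod (N := N) U
  have hN : (Nat.card N : ℂ) ≠ 0 := card_ne
  have hU : (Nat.card U : ℂ) ≠ 0 := card_ne
  have hS : (Nat.card (U ⊔ N : Subgroup G) : ℂ) ≠ 0 := card_ne
  obtain ⟨S, hSd⟩ : ∃ S : ℂ, S = ∑ x : G, ext (U ⊔ N) (fun u => ((κ u : ℂˣ) : ℂ)) (x⁻¹ * g * x) := ⟨_, rfl⟩
  rw [← hSd]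
  field_simp
  linear_combination S * h3

/-- the part of a monomial character, incompatible case -/
theorem part_ind_zero (μ : N →* ℂˣ) (hμ : ∀ (g : G) (n : N), μ (MulAut.conjNormal g n) = μ n) (U : Subgroup G)
    (ψ : U →* ℂˣ) {z : G} (hzU : z ∈ U) (hzN : z ∈ N) (hz : ψ ⟨z, hzU⟩ ≠ μ ⟨z, hzN⟩) :
    part N μ (ind U fun u => ((ψ u : ℂˣ) : ℂ)) = 0 := by
  classical
  have : Fintype G := Fintype.ofFinite G
  have : Fintype N := Fintype.ofFinite N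
  funext g
  rw [part_ind_aux μ hμ]
  have h1 : ∀ y : G, ∑ n : N, ext U (fun u => ((ψ u : ℂˣ) : ℂ)) (y * n) * (((μ n)⁻¹ : ℂˣ) : ℂ) = 0 := by
    intro y
    obtain ⟨A, hA⟩ : ∃ A : ℂ, A = ∑ n : N, ext U (fun u => ((ψ u : ℂˣ) : ℂ)) (y * n) * (((μ n)⁻¹ : ℂˣ) : ℂ) := ⟨_, rfl⟩
    have h2 : A = ((ψ ⟨z, hzU⟩ : ℂˣ) : ℂ) * (((μ ⟨z, hzN⟩)⁻¹ : ℂˣ) : ℂ) * A := by
      conv_lhs => rw [hA, ← Equiv.sum_comp (Equiv.mulRight (⟨z, hzN⟩ : N))
        (fun n : N => ext U (fun u => ((ψ u : ℂˣ) : ℂ)) (y * n) * (((μ n)⁻¹ : ℂˣ) : ℂ))]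
      rw [hA, Finset.mul_sum]
      refine Finset.sum_congr rfl fun n _ => ?_
      simp only [Equiv.coe_mulRight, Subgroup.coe_mul]
      rw [map_mul, mul_inv]
      by_cases h : y * n ∈ U
      · have h3 : y * (n * z) ∈ U := by
          rw [← mul_assoc]
          exact U.mul_mem h hzU
        rw [ext_mem _ _ h, ext_mem _ _ h3]
        have h4 : (⟨y * (n * z), h3⟩ : U) = ⟨y * n, h⟩ * ⟨z, hzU⟩ := by
          apply Subtype.ext
          simp [mul_assoc]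
        rw [h4, map_mul, Units.val_mul, Units.val_mul]
        ring
      · have h3 : y * (n * z) ∉ U := by
          intro h4
          apply h
          have h5 := U.mul_mem h4 (U.inv_mem hzU)
          have h6 : y * (n * z) * z⁻¹ = y * n := by group
          rwa [h6] at h5
        rw [ext_not _ _ h, ext_not _ _ h3]
        ring
    rw [← hA]
    have h3 : (1 - ((ψ ⟨z, hzU⟩ : ℂˣ) : ℂ) * (((μ ⟨z, hzN⟩)⁻¹ : ℂˣ) : ℂ)) * A = 0 := by
      rw [sub_mul, one_mul, ← h2, sub_self]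
    rcases mul_eq_zero.mp h3 with h4 | h4
    · exfalso
      apply hz
      apply Units.ext
      have h5 : ((ψ ⟨z, hzU⟩ : ℂˣ) : ℂ) * (((μ ⟨z, hzN⟩)⁻¹ : ℂˣ) : ℂ) = 1 := (sub_eq_zero.mp h4).symm
      rw [← Units.val_mul, Units.val_eq_one] at h5
      rw [mul_inv_eq_one.mp h5]
    · exact h4
  rw [Finset.sum_congr rfl (fun x _ => h1 (x⁻¹ * g * x)), Finset.sum_const_zero, mul_zero, mul_zero]
  rfl

end Run7.h988.DR
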