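import Mathlib
import Pool.Agent.R389.Grow
import Pool.Agent.Run7.h988.DR.PartInd

/-!
# Transfer of Deligne's conjecture along additive maps of virtual characters
-/

set_option autoImplicit false
set_option linter.unusedSectionVars false

namespace Run7.h988.DR

open Pool.Agent.R389 Pool.Agent.H302R2 Pool.Agent.H302R3 Pool.Agent.H541R3.ART Pool.Agent.W446.AS Filter Topology

variable {H G : Type} [Group H] [Finite H] [Group G] [Finite G] {E : Type} [Field E]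
  {L : (E →+* ℂ) → (G → ℂ) → ℂ → ℂ} {P : (E →+* ℂ) → (G → ℂ) → ℂ} {c : ℂ}
  (Φ : (E →+* ℂ) → (H → ℂ) →+ (G → ℂ))

/-- the transferred L-functions -/
noncomputable def tL (L : (E →+* ℂ) → (G → ℂ) → ℂ → ℂ) (τ : E →+* ℂ) (χ : H → ℂ) (s : ℂ) : ℂ :=
  ∏ η ∈ irrF G, L τ η s ^ mult (Φ τ χ) η

/-- the transferred periods -/
noncomputable def tP (P : (E →+* ℂ) → (G → ℂ) → ℂ) (τ : E →+* ℂ) (χ : H → ℂ) : ℂ :=
  ∏ η ∈ irrF G, P τ η ^ mult (Φ τ χ) η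

lemma tL_mero (hL : ∀ τ, ∀ χ ∈ Irr G, MeromorphicAt (L τ χ) c ∧ meromorphicOrderAt (L τ χ) c ≠ ⊤)
    (τ : E →+* ℂ) (χ : H → ℂ) : MeromorphicAt (tL Φ L τ χ) c ∧ meromorphicOrderAt (tL Φ L τ χ) c ≠ ⊤ := by
  have h := order_prod (hL τ) (irrF G) subset_rfl (mult (Φ τ χ))
  refine ⟨h.1, ?_⟩
  have h2 : meromorphicOrderAt (tL Φ L τ χ) c = _ := h.2
  rw [h2]
  exact WithTop.coe_ne_top

lemma tP_ne (hP : ∀ τ, ∀ χ ∈ Irr G, P τ χ ≠ 0) (τ : E →+* ℂ) (χ : H → ℂ) : tP Φ P τ χ ≠ 0 :=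
  Finset.prod_ne_zero_iff.mpr fun η hη => zpow_ne_zero _ (hP τ η (mem_irrF.mp hη))

lemma virt_sum {f : H → ℂ} (hf : Virt f) : f = ∑ χ ∈ irrF H, mult f χ • χ := by
  funext x
  rw [class_expand hf.conj x, Finset.sum_apply]
  refine Finset.sum_congr rfl fun χ hχ => ?_
  rw [mult_spec hf (mem_irrF.mp hχ), Pi.smul_apply, zsmul_eq_mul]

/-- multiplicities of the image -/
lemma mult_map (hΦ : ∀ τ f, Virt f → Virt (Φ τ f)) (τ : E →+* ℂ) {f : H → ℂ} (hf : Virt f) {η : G → ℂ}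
    (hη : η ∈ Irr G) : mult (Φ τ f) η = ∑ χ ∈ irrF H, mult f χ * mult (Φ τ χ) η := by
  apply mult_of_pr
  conv_lhs => rw [virt_sum hf, map_sum]
  have h1 : pr (∑ χ ∈ irrF H, Φ τ (mult f χ • χ)) η = ∑ χ ∈ irrF H, pr (Φ τ (mult f χ • χ)) η := by
    have h2 : ∀ s : Finset (H → ℂ), pr (∑ χ ∈ s, Φ τ (mult f χ • χ)) η = ∑ χ ∈ s, pr (Φ τ (mult f χ • χ)) η := by
      classical
      intro s
      induction s using Finset.induction_on with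
      | empty => rw [Finset.sum_empty, Finset.sum_empty, pr_zero_left]
      | insert a s ha ih => rw [Finset.sum_insert ha, Finset.sum_insert ha, pr_add, ih]
    exact h2 _
  rw [h1]
  push_cast
  refine Finset.sum_congr rfl fun χ hχ => ?_
  rw [map_zsmul, pr_zsmul', mult_spec (hΦ τ χ (AddSubgroup.subset_closure (mem_irrF.mp hχ))) hη]

lemma prod_zpow' {ι : Type*} (s : Finset ι) {a : ℂ} (ha : a ≠ 0) (k : ι → ℤ) :
    ∏ i ∈ s, a ^ k i = a ^ ∑ i ∈ s, k i := by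
  classical
  induction s using Finset.induction_on with
  | empty => simp
  | insert i s hi ih => rw [Finset.prod_insert hi, Finset.sum_insert hi, zpow_add₀ ha, ih]

/-- the product formula -/
lemma prod_map (hΦ : ∀ τ f, Virt f → Virt (Φ τ f)) (τ : E →+* ℂ) {f : H → ℂ} (hf : Virt f) (F : (G → ℂ) → ℂ)
    (hF : ∀ η ∈ irrF G, F η ≠ 0) :
    ∏ χ ∈ irrF H, (∏ η ∈ irrF G, F η ^ mult (Φ τ χ) η) ^ mult f χ = ∏ η ∈ irrF G, F η ^ mult (Φ τ f) η := by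
  have h1 : ∀ χ ∈ irrF H, (∏ η ∈ irrF G, F η ^ mult (Φ τ χ) η) ^ mult f χ =
      ∏ η ∈ irrF G, F η ^ (mult f χ * mult (Φ τ χ) η) := by
    intro χ _
    rw [← Finset.prod_zpow]
    refine Finset.prod_congr rfl fun η _ => ?_
    rw [← zpow_mul, mul_comm]
  rw [Finset.prod_congr rfl h1, Finset.prod_comm]
  refine Finset.prod_congr rfl fun η hη => ?_
  rw [mult_map Φ hΦ τ hf (mem_irrF.mp hη), prod_zpow' _ (hF η hη)]

/-- the transfer of the integral form -/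
lemma delZ_iff (hL : ∀ τ, ∀ χ ∈ Irr G, MeromorphicAt (L τ χ) c ∧ meromorphicOrderAt (L τ χ) c ≠ ⊤)
    (hP : ∀ τ, ∀ χ ∈ Irr G, P τ χ ≠ 0) (hΦ : ∀ τ f, Virt f → Virt (Φ τ f)) {f : H → E} {F : G → E} {e : E}
    (hf : ∀ τ : E →+* ℂ, Virt (fun h => τ (f h)))
    (hF : ∀ τ : E →+* ℂ, (fun g => τ (F g)) = Φ τ (fun h => τ (f h))) :
    DelZ (tL Φ L) (tP Φ P) c f e ↔ DelZ L P c F e := by
  have h1 : ∀ τ : E →+* ℂ, ∏ χ ∈ irrF H, tP Φ P τ χ ^ mult (fun h => τ (f h)) χ =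
      ∏ η ∈ irrF G, P τ η ^ mult (fun g => τ (F g)) η := by
    intro τ
    rw [hF]
    exact prod_map Φ hΦ τ (hf τ) (P τ) fun η hη => hP τ η (mem_irrF.mp hη)
  have h2 : ∀ τ : E →+* ℂ, (fun s => ∏ χ ∈ irrF H, tL Φ L τ χ s ^ mult (fun h => τ (f h)) χ) =ᶠ[𝓝[≠] c]
      fun s => ∏ η ∈ irrF G, L τ η s ^ mult (fun g => τ (F g)) η := by
    intro τ
    filter_upwards [ev_ne hL τ] with s hs
    rw [hF]
    exact prod_map Φ hΦ τ (hf τ) (fun η => L τ η s) hs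
  constructor
  · intro h
    refine ⟨fun τ => ?_, fun τ => ?_⟩
    · rw [hF]
      exact hΦ τ _ (hf τ)
    · rw [← h1]
      exact (h.2 τ).congr' (h2 τ)
  · intro h
    refine ⟨hf, fun τ => ?_⟩
    rw [h1]
    exact (h.2 τ).congr' (h2 τ).symm

/-- the order of a transferred product -/
lemma order_map (hL : ∀ τ, ∀ χ ∈ Irr G, MeromorphicAt (L τ χ) c ∧ meromorphicOrderAt (L τ χ) c ≠ ⊤)
    (hΦ : ∀ τ f, Virt f → Virt (Φ τ f)) (τ : E →+* ℂ) {f : H → ℂ} (hf : Virt f) (m : (H → ℂ) → ℕ)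
    (hm : ∀ χ ∈ irrF H, mult f χ = m χ) (m' : (G → ℂ) → ℕ) (hm' : ∀ η ∈ irrF G, mult (Φ τ f) η = m' η) :
    meromorphicOrderAt (fun s => ∏ᶠ χ ∈ Irr H, tL Φ L τ χ s ^ m χ) c =
      meromorphicOrderAt (fun s => ∏ᶠ η ∈ Irr G, L τ η s ^ m' η) c := by
  refine meromorphicOrderAt_congr ?_
  filter_upwards [ev_ne hL τ] with s hs
  rw [finprod_irr (fun χ => tL Φ L τ χ s ^ m χ), finprod_irr (fun η => L τ η s ^ m' η)]
  have h := prod_map Φ hΦ τ hf (fun η => L τ η s) hs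
  rw [Finset.prod_congr rfl (fun χ hχ => by rw [hm χ hχ, zpow_natCast] : ∀ χ ∈ irrF H,
    (∏ η ∈ irrF G, L τ η s ^ mult (Φ τ χ) η) ^ mult f χ = (∏ η ∈ irrF G, L τ η s ^ mult (Φ τ χ) η) ^ m χ),
    Finset.prod_congr rfl (fun η hη => by rw [hm' η hη, zpow_natCast] : ∀ η ∈ irrF G,
    L τ η s ^ mult (Φ τ f) η = L τ η s ^ m' η)] at h
  exact h

end Run7.h988.DR
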