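import Mathlib
import Pool.Agent.R389.Simple
import Pool.Agent.R389.SmallMain
import Pool.Agent.Run7.h988.DG.New
import Pool.Agent.Run7.h988.DG.Small
import Pool.Agent.Run7.h988.DR.Trans

/-!
# Deligne's conjecture for the part over an orbit of linear characters of a normal subgroup
-/

set_option autoImplicit false
set_option linter.unusedSectionVars false

namespace Run7.h988.DR

open Pool.Agent.R389 Pool.Agent.H302R2 Pool.Agent.H302R3 Pool.Agent.H541R3.ART Pool.Agent.W446.AS Filter Topology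

variable {G : Type} [Group G] [Finite G] {E : Type} [Field E]
  {L : (E →+* ℂ) → (G → ℂ) → ℂ → ℂ} {P : (E →+* ℂ) → (G → ℂ) → ℂ} {c : ℂ}
  {N : Subgroup G} [N.Normal]

/-- the complex linear character at an embedding -/
def lmu (τ : E →+* ℂ) {M : Type} [Group M] (lam : M →* Eˣ) : M →* ℂˣ := (Units.map τ.toMonoidHom).comp lam

lemma lmu_apply (τ : E →+* ℂ) {M : Type} [Group M] (lam : M →* Eˣ) (n : M) :
    ((lmu τ lam n : ℂˣ) : ℂ) = τ ((lam n : Eˣ) : E) := rfl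

/-- invariance under the stabilizer, over `E` -/
lemma lam_inv (τ₀ : E →+* ℂ) (lam : N →* Eˣ) {g : G} (hg : g ∈ stb (lmu τ₀ lam)) (n : N) :
    lam (MulAut.conjNormal g n) = lam n := by
  have h := stb_inv hg n
  apply Units.ext
  apply τ₀.injective
  exact congrArg Units.val h

/-- the restriction of the character to `N` as a subgroup of the stabilizer -/
noncomputable def rlam (τ₀ : E →+* ℂ) (lam : N →* Eˣ) : N.subgroupOf (stb (lmu τ₀ lam)) →* Eˣ :=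
  lam.comp (Subgroup.subgroupOfEquivOfLe (le_stb (lmu τ₀ lam))).toMonoidHom

lemma rlam_inv (τ₀ : E →+* ℂ) (lam : N →* Eˣ) (g : stb (lmu τ₀ lam)) (n : N.subgroupOf (stb (lmu τ₀ lam))) :
    rlam τ₀ lam (MulAut.conjNormal g n) = rlam τ₀ lam n := by
  have h1 := lam_inv τ₀ lam g.2 ⟨((n : stb (lmu τ₀ lam)) : G), Subgroup.mem_subgroupOf.mp n.2⟩
  refine Eq.trans ?_ h1
  change lam _ = _
  congr 1

/-- the map of virtual characters -/
noncomputable def Ph (τ₀ : E →+* ℂ) (lam : N →* Eˣ) (τ : E →+* ℂ) : (stb (lmu τ₀ lam) → ℂ) →+ (G → ℂ) :=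
  (indHom (stb (lmu τ₀ lam))).comp (partHom (N.subgroupOf (stb (lmu τ₀ lam))) (lmu τ (rlam τ₀ lam)))

lemma Ph_apply (τ₀ : E →+* ℂ) (lam : N →* Eˣ) (τ : E →+* ℂ) (f : stb (lmu τ₀ lam) → ℂ) :
    Ph τ₀ lam τ f = ind (stb (lmu τ₀ lam)) (part (N.subgroupOf (stb (lmu τ₀ lam))) (lmu τ (rlam τ₀ lam)) f) := rfl

lemma lmu_inv (τ₀ τ : E →+* ℂ) (lam : N →* Eˣ) (g : stb (lmu τ₀ lam)) (n : N.subgroupOf (stb (lmu τ₀ lam))) :
    lmu τ (rlam τ₀ lam) (MulAut.conjNormal g n) = lmu τ (rlam τ₀ lam) n := by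
  apply Units.ext
  rw [lmu_apply, lmu_apply, rlam_inv]

lemma Ph_virt (τ₀ : E →+* ℂ) (lam : N →* Eˣ) (τ : E →+* ℂ) (f : stb (lmu τ₀ lam) → ℂ) (hf : Virt f) :
    Virt (Ph τ₀ lam τ f) := by
  rw [Ph_apply]
  exact virt_ind _ (virt_part (fun g n => lmu_inv τ₀ τ lam g n) hf)

/-- the sum over the orbit -/
lemma Ph_orb (τ₀ : E →+* ℂ) (lam : N →* Eˣ) {f : G → ℂ} (hf : ∀ g x : G, f (x * g * x⁻¹) = f g) :
    Ph τ₀ lam τ₀ (fun x => f x) = ∑ ν ∈ orb (lmu τ₀ lam), part N ν f := by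
  funext g
  rw [Finset.sum_apply, sum_orb (lmu τ₀ lam) hf g, Ph_apply]
  congr 1
  funext x
  exact part_res (le_stb (lmu τ₀ lam)) (lmu τ₀ lam) f x

/-- monomial characters of the stabilizer -/
lemma mon_F (hmon : ∀ (U : Subgroup G) (ψ : U →* Eˣ), N ≤ U →
      Deligne L P c (ind U (fun u => ((ψ u : Eˣ) : E)))) (τ₀ : E →+* ℂ) (lam : N →* Eˣ)
    (U : Subgroup (stb (lmu τ₀ lam))) (ψ : U →* Eˣ) :
    ∃ (F : G → E) (e : E), (∀ τ : E →+* ℂ, (fun g => τ (F g)) =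
      Ph τ₀ lam τ (fun h => τ (ind U (fun u => ((ψ u : Eˣ) : E)) h))) ∧ DelZ L P c F e := by
  classical
  have hτ : ∀ τ : E →+* ℂ, (fun h => τ (ind U (fun u => ((ψ u : Eˣ) : E)) h)) =
      ind U (fun u => ((lmu τ ψ u : ℂˣ) : ℂ)) := by
    intro τ
    funext h
    rw [ind_map]
    rfl
  by_cases hcomp : ∀ (x : stb (lmu τ₀ lam)) (hU : x ∈ U) (hK : x ∈ N.subgroupOf (stb (lmu τ₀ lam))),
      ψ ⟨x, hU⟩ = rlam τ₀ lam ⟨x, hK⟩
  · obtain ⟨κ, hκ1, hκ2⟩ := glue (N.subgroupOf (stb (lmu τ₀ lam))) U ψ (rlam τ₀ lam)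
      (fun g k => rlam_inv τ₀ lam g k) hcomp
    let S : Subgroup (stb (lmu τ₀ lam)) := U ⊔ N.subgroupOf (stb (lmu τ₀ lam))
    let κ' : S.map (stb (lmu τ₀ lam)).subtype →* Eˣ := κ.comp
      (S.equivMapOfInjective (stb (lmu τ₀ lam)).subtype (stb (lmu τ₀ lam)).subtype_injective).symm.toMonoidHom
    have hNS : N ≤ S.map (stb (lmu τ₀ lam)).subtype := by
      intro n hn
      exact ⟨⟨n, le_stb (lmu τ₀ lam) hn⟩, Subgroup.mem_sup_right (Subgroup.mem_subgroupOf.mpr hn), rfl⟩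
    obtain ⟨e, he⟩ := delZ_ind (hmon (S.map (stb (lmu τ₀ lam)).subtype) κ' hNS)
    refine ⟨_, e, fun τ => ?_, he⟩
    rw [hτ, Ph_apply, part_ind (lmu τ (rlam τ₀ lam)) (fun g n => lmu_inv τ₀ τ lam g n) U (lmu τ ψ) (lmu τ κ)
      (fun x hx => Units.ext (by rw [lmu_apply, lmu_apply, hκ1]))
      (fun k hk => Units.ext (by rw [lmu_apply, lmu_apply, hκ2])), ind_ind]
    funext g
    rw [ind_map]
    rfl
  · push Not at hcomp
    obtain ⟨x, hU, hK, hne⟩ := hcomp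
    refine ⟨0, 1, fun τ => ?_, DelZ.zero⟩
    rw [hτ, Ph_apply, part_ind_zero (lmu τ (rlam τ₀ lam)) (fun g n => lmu_inv τ₀ τ lam g n) U (lmu τ ψ) hU hK
      (fun h => hne (by
        apply Units.ext
        apply τ.injective
        exact congrArg Units.val h)), ind_zero]
    funext g
    rw [Pi.zero_apply, map_zero]
    rfl

lemma virt_mono (τ : E →+* ℂ) {H : Type} [Group H] [Finite H] (U : Subgroup H) (ψ : U →* Eˣ) :
    Virt (fun h => τ (ind U (fun u => ((ψ u : Eˣ) : E)) h)) := by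
  have h1 : (fun h => τ (ind U (fun u => ((ψ u : Eˣ) : E)) h)) = ind U (fun u => ((lmu τ ψ u : ℂˣ) : ℂ)) := by
    funext h
    rw [ind_map]
    rfl
  rw [h1]
  exact virt_ind U (AddSubgroup.subset_closure (lin_irr _))

/-- Deligne's conjecture for the monomial characters of the stabilizer -/
lemma mon_stab (hL : ∀ τ, ∀ χ ∈ Irr G, MeromorphicAt (L τ χ) c ∧ meromorphicOrderAt (L τ χ) c ≠ ⊤)
    (hP : ∀ τ, ∀ χ ∈ Irr G, P τ χ ≠ 0)
    (hmon : ∀ (U : Subgroup G) (ψ : U →* Eˣ), N ≤ U →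
      Deligne L P c (ind U (fun u => ((ψ u : Eˣ) : E)))) (τ₀ : E →+* ℂ) (lam : N →* Eˣ)
    (U : Subgroup (stb (lmu τ₀ lam))) (ψ : U →* Eˣ) :
    Deligne (tL (Ph τ₀ lam) L) (tP (Ph τ₀ lam) P) c (ind U (fun u => ((ψ u : Eˣ) : E))) := by
  obtain ⟨F, e, h1, h2⟩ := mon_F hmon τ₀ lam U ψ
  exact ((delZ_iff (Ph τ₀ lam) hL hP (Ph_virt τ₀ lam) (fun τ => virt_mono τ U ψ) h1).2 h2).deligne

/-- the characters which are images of functions satisfying Deligne's conjecture -/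
def Sub (L : (E →+* ℂ) → (G → ℂ) → ℂ → ℂ) (P : (E →+* ℂ) → (G → ℂ) → ℂ) (c : ℂ)
    (hL : ∀ τ, ∀ χ ∈ Irr G, MeromorphicAt (L τ χ) c ∧ meromorphicOrderAt (L τ χ) c ≠ ⊤)
    (hP : ∀ τ, ∀ χ ∈ Irr G, P τ χ ≠ 0) (τ₀ : E →+* ℂ) : AddSubmonoid (G → ℂ) where
  carrier := {a | ∃ (f : G → E) (e : E), (∀ g, τ₀ (f g) = a g) ∧ DelZ L P c f e}
  zero_mem' := ⟨0, 1, fun g => map_zero τ₀, DelZ.zero⟩
  add_mem' := by
    rintro a b ⟨f, e, h1, h2⟩ ⟨f', e', h1', h2'⟩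
    exact ⟨f + f', e * e', fun g => by rw [Pi.add_apply, map_add, h1, h1']; rfl, h2.add hL hP h2'⟩

/-- the nilpotent case -/
lemma sub_nil {ζ : E} (hζ : IsPrimitiveRoot ζ (Monoid.exponent G))
    (hL : ∀ τ, ∀ χ ∈ Irr G, MeromorphicAt (L τ χ) c ∧ meromorphicOrderAt (L τ χ) c ≠ ⊤)
    (hP : ∀ τ, ∀ χ ∈ Irr G, P τ χ ≠ 0)
    (hmon : ∀ (U : Subgroup G) (ψ : U →* Eˣ), N ≤ U →
      Deligne L P c (ind U (fun u => ((ψ u : Eˣ) : E)))) (τ₀ : E →+* ℂ) (lam : N →* Eˣ)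
    (hnil : Group.IsNilpotent (stb (lmu τ₀ lam) ⧸ N.subgroupOf (stb (lmu τ₀ lam))))
    {f : stb (lmu τ₀ lam) → ℂ} (hf : f ∈ AddSubmonoid.closure (Irr (stb (lmu τ₀ lam)))) :
    Ph τ₀ lam τ₀ f ∈ Sub L P c hL hP τ₀ := by
  classical
  have h1 : AddSubmonoid.closure (Irr (stb (lmu τ₀ lam))) ≤
      (Sub L P c hL hP τ₀).comap (Ph τ₀ lam τ₀ : (stb (lmu τ₀ lam) → ℂ) →+ (G → ℂ)) := by
    rw [AddSubmonoid.closure_le]
    intro χ hχ
    rw [SetLike.mem_coe, AddSubmonoid.mem_comap]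
    by_cases hne : part (N.subgroupOf (stb (lmu τ₀ lam))) (lmu τ₀ (rlam τ₀ lam)) χ = 0
    · rw [Ph_apply, hne, ind_zero]
      exact zero_mem _
    · obtain ⟨U, ψ, rfl⟩ := mono_of_nil (fun g n => lmu_inv τ₀ τ₀ lam g n) hχ hne hnil
      -- lift to `E`
      have hdvd : Monoid.exponent (stb (lmu τ₀ lam)) ∣ Monoid.exponent G :=
        Monoid.exponent_dvd_of_forall_pow_eq_one fun x => Subtype.ext (by
          rw [Subgroup.coe_pow, Monoid.pow_exponent_eq_one]; rfl)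
      obtain ⟨k, hk⟩ := hdvd
      have hζ' : IsPrimitiveRoot (ζ ^ k) (Monoid.exponent (stb (lmu τ₀ lam))) :=
        hζ.pow (Nat.pos_of_ne_zero Monoid.exponent_ne_zero_of_finite) (by rw [hk, mul_comm])
      obtain ⟨ψE, hψE⟩ := lift_char hζ' τ₀ U ψ
      obtain ⟨F, e, h2, h3⟩ := mon_F hmon τ₀ lam U ψE
      refine ⟨F, e, fun g => ?_, h3⟩
      have h4 := congrFun (h2 τ₀) g
      have h5 : (fun h => τ₀ (ind U (fun u => ((ψE u : Eˣ) : E)) h)) = ind U (fun h => ((ψ h : ℂˣ) : ℂ)) := by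
        funext h
        rw [ind_map]
        congr 1
        funext u
        exact hψE u
      rw [h5] at h4
      exact h4
  exact h1 hf

/-- the part over `E` -/
noncomputable def partE (N : Subgroup G) (lam : N →* Eˣ) (f : G → E) (g : G) : E :=
  (Nat.card N : E)⁻¹ * ∑ᶠ n : N, f (g * n) * (((lam n)⁻¹ : Eˣ) : E)

lemma partE_map {H : Type} [Group H] [Finite H] (τ : E →+* ℂ) (K : Subgroup H) (lam : K →* Eˣ) (f : H → E) (g : H) :
    τ (partE K lam f g) = part K (lmu τ lam) (fun x => τ (f x)) g := by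
  classical
  have : Fintype K := Fintype.ofFinite K
  unfold partE
  rw [part_eq, finsum_eq_sum_of_fintype, map_mul, map_inv₀, map_natCast, map_sum]
  congr 1
  refine Finset.sum_congr rfl fun n _ => ?_
  rw [map_mul]
  congr 1

/-- from the stabilizer to the whole group -/
lemma sub_of_stab (hL : ∀ τ, ∀ χ ∈ Irr G, MeromorphicAt (L τ χ) c ∧ meromorphicOrderAt (L τ χ) c ≠ ⊤)
    (hP : ∀ τ, ∀ χ ∈ Irr G, P τ χ ≠ 0) (τ₀ : E →+* ℂ) (lam : N →* Eˣ)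
    {V : Type} [AddCommGroup V] [Module E V] [FiniteDimensional E V]
    (σ : Representation E (stb (lmu τ₀ lam)) V)
    (h : Deligne (tL (Ph τ₀ lam) L) (tP (Ph τ₀ lam) P) c σ.character) :
    Ph τ₀ lam τ₀ (fun x => τ₀ (σ.character x)) ∈ Sub L P c hL hP τ₀ := by
  obtain ⟨e, he⟩ := h.delZ fun τ => decomp_of_closure (base_change τ σ)
  have hF : ∀ τ : E →+* ℂ, (fun g => τ (ind (stb (lmu τ₀ lam))
      (partE (N.subgroupOf (stb (lmu τ₀ lam))) (rlam τ₀ lam) σ.character) g)) =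
      Ph τ₀ lam τ (fun x => τ (σ.character x)) := by
    intro τ
    funext g
    rw [ind_map, Ph_apply]
    congr 1
    funext x
    exact partE_map τ _ _ _ _
  have h2 := (delZ_iff (Ph τ₀ lam) hL hP (Ph_virt τ₀ lam)
    (fun τ => virt_of_closure (base_change τ σ)) hF).1 he
  exact ⟨_, e, fun g => congrFun (hF τ₀) g, h2⟩

end Run7.h988.DR
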