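import Mathlib
import Pool.Agent.Run7.h988.DR.Stab

/-!
# Deligne's conjecture for the representations which are abelian over a normal subgroup
-/

set_option autoImplicit false
set_option linter.unusedSectionVars false

namespace Run7.h988.DR

open Pool.Agent.R389 Pool.Agent.H302R2 Pool.Agent.H302R3 Pool.Agent.H541R3.ART Pool.Agent.W446.AS Filter Topology

section deg

variable {H : Type} [Group H] [Finite H]

/-- the degrees -/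
noncomputable def dg (χ : H → ℂ) : ℕ := ⌊(χ 1).re⌋₊

lemma dg_spec {χ : H → ℂ} (hχ : χ ∈ Irr H) : χ 1 = (dg χ : ℂ) := by
  obtain ⟨m, ρ, hρ, rfl⟩ := exists_rep hχ
  have h3 : ρ.character 1 = (Module.finrank ℂ (Fin m → ℂ) : ℂ) := ρ.char_one
  unfold dg
  rw [h3]
  simp

open Classical in
/-- the regular character -/
noncomputable def rg (H : Type) [Group H] (x : H) : ℂ := if x = 1 then (Nat.card H : ℂ) else 0

lemma rg_conj (g x : H) : rg H (x * g * x⁻¹) = rg H g := by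
  have h : x * g * x⁻¹ = 1 ↔ g = 1 := by
    constructor
    · intro h
      have h1 : g = x⁻¹ * (x * g * x⁻¹) * x := by group
      rw [h1, h]
      group
    · rintro rfl
      group
  by_cases hg : g = 1
  · rw [hg, mul_one, mul_inv_cancel]
  · unfold rg
    rw [if_neg hg, if_neg (fun h' => hg (h.mp h'))]

lemma sum_rg [Fintype H] (F : H → ℂ) : ∑ x : H, rg H x * F x = Nat.card H * F 1 := by
  classical
  unfold rg
  rw [Finset.sum_eq_single 1]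
  · rw [if_pos rfl]
  · intro b _ hb
    rw [if_neg hb, zero_mul]
  · intro h
    exact absurd (Finset.mem_univ _) h

lemma pr_rg {χ : H → ℂ} (hχ : χ ∈ Irr H) : pr (rg H) χ = (dg χ : ℂ) := by
  classical
  have : Fintype H := Fintype.ofFinite H
  rw [pr_eq, sum_rg (fun x => χ x⁻¹), inv_one, ← mul_assoc, inv_mul_cancel₀ card_ne, one_mul, dg_spec hχ]

lemma rg_virt : Virt (rg H) :=
  virt_of_int (fun g x => rg_conj g x) fun χ hχ => ⟨dg χ, by rw [pr_rg hχ]; simp⟩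

end deg

variable {G : Type} [Group G] [Finite G] {E : Type} [Field E]
  {L : (E →+* ℂ) → (G → ℂ) → ℂ → ℂ} {P : (E →+* ℂ) → (G → ℂ) → ℂ} {c : ℂ}
  {N : Subgroup G} [N.Normal]

/-- the multiplicities of the image of the regular character -/
lemma pr_Ph_rg (τ₀ τ : E →+* ℂ) (lam : N →* Eˣ) {η : G → ℂ} (hη : η ∈ Irr G) :
    pr (Ph τ₀ lam τ (rg (stb (lmu τ₀ lam)))) η = pr (ind N (fun x => ((lmu τ lam x : ℂˣ) : ℂ))) η := by
  classical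
  have : Fintype G := Fintype.ofFinite G
  have : Fintype (stb (lmu τ₀ lam)) := Fintype.ofFinite _
  have : Fintype N := Fintype.ofFinite N
  have : Fintype (N.subgroupOf (stb (lmu τ₀ lam))) := Fintype.ofFinite _
  rw [Ph_apply, frob _ _ (Irr.conj hη), frob _ _ (Irr.conj hη), pr_eq, pr_eq]
  have h1 : ∀ g : stb (lmu τ₀ lam), part (N.subgroupOf (stb (lmu τ₀ lam))) (lmu τ (rlam τ₀ lam)) (rg (stb (lmu τ₀ lam))) g *
      η ((g⁻¹ : stb (lmu τ₀ lam)) : G) = (Nat.card (N.subgroupOf (stb (lmu τ₀ lam))) : ℂ)⁻¹ *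
        ∑ n : N.subgroupOf (stb (lmu τ₀ lam)), rg (stb (lmu τ₀ lam)) (g * n) * ((((lmu τ (rlam τ₀ lam) n)⁻¹ : ℂˣ) : ℂ) *
          η ((g⁻¹ : stb (lmu τ₀ lam)) : G)) := by
    intro g
    rw [part_eq, mul_assoc, Finset.sum_mul]
    congr 1
    refine Finset.sum_congr rfl fun n _ => ?_
    ring
  rw [Finset.sum_congr rfl (fun g _ => h1 g), ← Finset.mul_sum, Finset.sum_comm]
  have h2 : ∀ n : N.subgroupOf (stb (lmu τ₀ lam)), ∑ g : stb (lmu τ₀ lam), rg (stb (lmu τ₀ lam)) (g * n) *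
      ((((lmu τ (rlam τ₀ lam) n)⁻¹ : ℂˣ) : ℂ) * η ((g⁻¹ : stb (lmu τ₀ lam)) : G)) =
        Nat.card (stb (lmu τ₀ lam)) * ((((lmu τ (rlam τ₀ lam) n)⁻¹ : ℂˣ) : ℂ) * η ((n : stb (lmu τ₀ lam)) : G)) := by
    intro n
    rw [← Equiv.sum_comp (Equiv.mulRight (n : stb (lmu τ₀ lam))⁻¹) (fun g : stb (lmu τ₀ lam) =>
      rg (stb (lmu τ₀ lam)) (g * n) * ((((lmu τ (rlam τ₀ lam) n)⁻¹ : ℂˣ) : ℂ) * η ((g⁻¹ : stb (lmu τ₀ lam)) : G)))]
    have h3 : ∀ g : stb (lmu τ₀ lam), rg (stb (lmu τ₀ lam)) (Equiv.mulRight (n : stb (lmu τ₀ lam))⁻¹ g * n) *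
        ((((lmu τ (rlam τ₀ lam) n)⁻¹ : ℂˣ) : ℂ) * η (((Equiv.mulRight (n : stb (lmu τ₀ lam))⁻¹ g)⁻¹ : stb (lmu τ₀ lam)) : G)) =
        rg (stb (lmu τ₀ lam)) g * (fun g : stb (lmu τ₀ lam) => (((lmu τ (rlam τ₀ lam) n)⁻¹ : ℂˣ) : ℂ) *
          η (((n : stb (lmu τ₀ lam)) * g⁻¹ : stb (lmu τ₀ lam)) : G)) g := by
      intro g
      rw [Equiv.coe_mulRight, inv_mul_cancel_right, mul_inv_rev, inv_inv]
    rw [Finset.sum_congr rfl (fun g _ => h3 g), sum_rg, inv_one, mul_one]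
  rw [Finset.sum_congr rfl (fun n _ => h2 n), ← Finset.mul_sum]
  have h4 : (Nat.card (stb (lmu τ₀ lam)) : ℂ) ≠ 0 := card_ne
  have h5 : ∑ n : N.subgroupOf (stb (lmu τ₀ lam)), (((lmu τ (rlam τ₀ lam) n)⁻¹ : ℂˣ) : ℂ) * η ((n : stb (lmu τ₀ lam)) : G) =
      ∑ n : N, (((lmu τ lam n)⁻¹ : ℂˣ) : ℂ) * η n :=
    Fintype.sum_equiv (Subgroup.subgroupOfEquivOfLe (le_stb (lmu τ₀ lam))).toEquiv _ _ fun n => rfl
  have h6 : ∑ n : N, (((lmu τ lam n)⁻¹ : ℂˣ) : ℂ) * η n =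
      ∑ n : N, ((lmu τ lam n : ℂˣ) : ℂ) * η ((n⁻¹ : N) : G) := by
    rw [← Equiv.sum_comp (Equiv.inv N) (fun n : N => (((lmu τ lam n)⁻¹ : ℂˣ) : ℂ) * η n)]
    refine Finset.sum_congr rfl fun n _ => ?_
    rw [Equiv.inv_apply, map_inv, inv_inv]
  rw [h5, h6, Nat.card_congr (Subgroup.subgroupOfEquivOfLe (le_stb (lmu τ₀ lam))).toEquiv]
  rw [mul_left_comm, inv_mul_cancel_left₀ h4]

/-- the order of the transferred L-function of the regular character -/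
lemma ord_stab (hL : ∀ τ, ∀ χ ∈ Irr G, MeromorphicAt (L τ χ) c ∧ meromorphicOrderAt (L τ χ) c ≠ ⊤)
    (τ₀ τ : E →+* ℂ) (lam : N →* Eˣ) {m : (G → ℂ) → ℕ}
    (hm : IsDecomp (ind N (fun x => ((lmu τ lam x : ℂˣ) : ℂ))) m) :
    meromorphicOrderAt (fun s => ∏ᶠ χ ∈ Irr (stb (lmu τ₀ lam)), tL (Ph τ₀ lam) L τ χ s ^ dg χ) c =
      meromorphicOrderAt (fun s => ∏ᶠ η ∈ Irr G, L τ η s ^ m η) c := by
  refine order_map (Ph τ₀ lam) hL (Ph_virt τ₀ lam) τ rg_virt dg (fun χ hχ => ?_) m fun η hη => ?_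
  · apply mult_of_pr
    rw [pr_rg (mem_irrF.mp hχ)]
    simp
  · apply mult_of_pr
    rw [pr_Ph_rg τ₀ τ lam (mem_irrF.mp hη), hm.pr (mem_irrF.mp hη)]
    simp

lemma ind_N_decomp (τ : E →+* ℂ) (lam : N →* Eˣ) : ∃ m, IsDecomp (ind N (fun x => ((lmu τ lam x : ℂˣ) : ℂ))) m :=
  ind_isDecomp N (lmu τ lam)

lemma root_sub {ζ : E} (hζ : IsPrimitiveRoot ζ (Monoid.exponent G)) (H : Subgroup G) :
    ∃ ζ' : E, IsPrimitiveRoot ζ' (Monoid.exponent H) := by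
  have hdvd : Monoid.exponent H ∣ Monoid.exponent G :=
    Monoid.exponent_dvd_of_forall_pow_eq_one fun x => Subtype.ext (by
      rw [Subgroup.coe_pow, Monoid.pow_exponent_eq_one]; rfl)
  obtain ⟨k, hk⟩ := hdvd
  exact ⟨ζ ^ k, hζ.pow (Nat.pos_of_ne_zero Monoid.exponent_ne_zero_of_finite) (by rw [hk, mul_comm])⟩

/-- order at most one -/
lemma sub_one {ζ : E} (hζ : IsPrimitiveRoot ζ (Monoid.exponent G))
    (hL : ∀ τ, ∀ χ ∈ Irr G, MeromorphicAt (L τ χ) c ∧ meromorphicOrderAt (L τ χ) c ≠ ⊤)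
    (hP : ∀ τ, ∀ χ ∈ Irr G, P τ χ ≠ 0)
    (hmon : ∀ (U : Subgroup G) (ψ : U →* Eˣ), N ≤ U →
      Deligne L P c (ind U (fun u => ((ψ u : Eˣ) : E)))) (τ₀ τ₁ : E →+* ℂ) (lam : N →* Eˣ)
    (hone : ∀ m : (G → ℂ) → ℕ, IsDecomp (ind N (fun x => ((lmu τ₁ lam x : ℂˣ) : ℂ))) m →
      meromorphicOrderAt (fun s => ∏ᶠ η ∈ Irr G, L τ₁ η s ^ m η) c ≤ 1)
    {V : Type} [AddCommGroup V] [Module E V] [FiniteDimensional E V]
    (σ : Representation E (stb (lmu τ₀ lam)) V) :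
    Ph τ₀ lam τ₀ (fun x => τ₀ (σ.character x)) ∈ Sub L P c hL hP τ₀ := by
  obtain ⟨ζ', hζ'⟩ := root_sub hζ (stb (lmu τ₀ lam))
  obtain ⟨m, hm⟩ := ind_N_decomp τ₁ lam
  refine sub_of_stab hL hP τ₀ lam σ ?_
  refine Pool.Agent.R389.main (p := 2) hζ' (fun τ χ _ => tL_mero (Ph τ₀ lam) hL τ χ) (fun τ χ _ => tP_ne (Ph τ₀ lam) hP τ χ)
    (fun U ψ _ => mon_stab hL hP hmon τ₀ lam U ψ) τ₁ (deg := dg) (fun χ hχ => dg_spec hχ)
    Nat.prime_two ⊤ Pool.Agent.R389.top_pgroup 1 ?_ σ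
  rw [ord_stab hL τ₀ τ₁ lam hm]
  exact le_max_of_le_left (hone m hm)

/-- small order -/
lemma sub_small {ζ : E} (hζ : IsPrimitiveRoot ζ (Monoid.exponent G))
    (hL : ∀ τ, ∀ χ ∈ Irr G, MeromorphicAt (L τ χ) c ∧ meromorphicOrderAt (L τ χ) c ≠ ⊤)
    (hP : ∀ τ, ∀ χ ∈ Irr G, P τ χ ≠ 0)
    (hmon : ∀ (U : Subgroup G) (ψ : U →* Eˣ), N ≤ U →
      Deligne L P c (ind U (fun u => ((ψ u : Eˣ) : E)))) (τ₀ τ₁ : E →+* ℂ) (lam : N →* Eˣ)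
    (hsol : Group.IsSolvable (stb (lmu τ₀ lam)))
    (hsm : ∀ m : (G → ℂ) → ℕ, IsDecomp (ind N (fun x => ((lmu τ₁ lam x : ℂˣ) : ℂ))) m →
      ∀ p : ℕ, p.Prime → p ∣ Nat.card (stb (lmu τ₀ lam)) →
      meromorphicOrderAt (fun s => ∏ᶠ η ∈ Irr G, L τ₁ η s ^ m η) c < p)
    {V : Type} [AddCommGroup V] [Module E V] [FiniteDimensional E V]
    (σ : Representation E (stb (lmu τ₀ lam)) V) :
    Ph τ₀ lam τ₀ (fun x => τ₀ (σ.character x)) ∈ Sub L P c hL hP τ₀ := by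
  obtain ⟨ζ', hζ'⟩ := root_sub hζ (stb (lmu τ₀ lam))
  obtain ⟨m, hm⟩ := ind_N_decomp τ₁ lam
  refine sub_of_stab hL hP τ₀ lam σ ?_
  have hmonH : ∀ (U : Subgroup (stb (lmu τ₀ lam))) (ψ : U →* Eˣ),
      Deligne (tL (Ph τ₀ lam) L) (tP (Ph τ₀ lam) P) c (ind U (fun u => ((ψ u : Eˣ) : E))) :=
    fun U ψ => mon_stab hL hP hmon τ₀ lam U ψ
  obtain ⟨m₁, hm₁⟩ := ind_isDecomp (⊤ : Subgroup (stb (lmu τ₀ lam))) 1
  have hLH := fun (τ : E →+* ℂ) (χ : stb (lmu τ₀ lam) → ℂ) (_ : χ ∈ Irr (stb (lmu τ₀ lam))) => tL_mero (Ph τ₀ lam) hL τ χ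
  have hPH := fun (τ : E →+* ℂ) (χ : stb (lmu τ₀ lam) → ℂ) (_ : χ ∈ Irr (stb (lmu τ₀ lam))) => tP_ne (Ph τ₀ lam) hP τ χ
  have h0 : 0 ≤ meromorphicOrderAt (fun s => ∏ᶠ χ ∈ Irr (stb (lmu τ₀ lam)), tL (Ph τ₀ lam) L τ₁ χ s ^ m₁ χ) c := by
    obtain ⟨e, he⟩ := hmonH ⊤ 1
    have h1 := he τ₁ m₁ (by
      have h2 : (fun g => τ₁ (ind (⊤ : Subgroup (stb (lmu τ₀ lam))) (fun u => (((1 : _ →* Eˣ) u : Eˣ) : E)) g)) =
          ind ⊤ (fun h => (((1 : (⊤ : Subgroup (stb (lmu τ₀ lam))) →* ℂˣ) h : ℂˣ) : ℂ)) := by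
        funext g
        rw [ind_map]
        congr 1
        funext u
        simp
      rw [h2]
      exact hm₁)
    have h4 : (fun s => ∏ᶠ χ ∈ Irr (stb (lmu τ₀ lam)), tL (Ph τ₀ lam) L τ₁ χ s ^ m₁ χ)
        = fun z => ∏ χ ∈ irrF (stb (lmu τ₀ lam)), tL (Ph τ₀ lam) L τ₁ χ z ^ ((m₁ χ : ℕ) : ℤ) := by
      funext s
      rw [finprod_irr (fun χ => tL (Ph τ₀ lam) L τ₁ χ s ^ m₁ χ)]
      exact Finset.prod_congr rfl fun χ _ => by rw [zpow_natCast]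
    have h3 := order_prod (c := c) (hLH τ₁) (irrF _) subset_rfl (fun χ => (m₁ χ : ℤ))
    rw [h4] at h1 ⊢
    exact (tendsto_nhds_iff_meromorphicOrderAt_nonneg h3.1).mp ⟨_, h1⟩
  refine Pool.Agent.R389.main_small hζ' hLH hPH (fun U ψ _ => hmonH U ψ) τ₁ (deg := dg)
    (fun χ hχ => dg_spec hχ) ⊤ inferInstance 1 hm₁ ?_ ?_ σ
  · intro p hp hpd
    rw [ord_stab hL τ₀ τ₁ lam hm]
    have h1 := hsm m hm p hp (by rwa [Subgroup.card_top] at hpd)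
    refine h1.trans_le ?_
    calc ((p : ℕ) : WithTop ℤ) = 0 + p := (zero_add _).symm
      _ ≤ _ := add_le_add h0 le_rfl
  · intro W _ _ _ σ' hσ'
    refine Run7.h988.DG.del_of_an hζ' hLH hPH hmonH τ₁ (K := ⁅(⊤ : Subgroup (stb (lmu τ₀ lam))), ⊤⁆) ?_ σ' hσ'
    refine ⟨⊤, inferInstance, ?_, ?_⟩
    · rintro ⟨a, -⟩ ⟨b, -⟩
      apply Subtype.ext
      obtain ⟨x, rfl⟩ := QuotientGroup.mk_surjective a
      obtain ⟨y, rfl⟩ := QuotientGroup.mk_surjective b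
      change (QuotientGroup.mk (x * y) : stb (lmu τ₀ lam) ⧸ ⁅(⊤ : Subgroup (stb (lmu τ₀ lam))), ⊤⁆) = QuotientGroup.mk (y * x)
      rw [QuotientGroup.eq]
      have h5 : (x * y)⁻¹ * (y * x) = y⁻¹ * x⁻¹ * (y⁻¹)⁻¹ * (x⁻¹)⁻¹ := by
        group
      rw [h5]
      exact Subgroup.commutator_mem_commutator (H₁ := (⊤ : Subgroup (stb (lmu τ₀ lam))))
        (H₂ := (⊤ : Subgroup (stb (lmu τ₀ lam)))) (Subgroup.mem_top y⁻¹) (Subgroup.mem_top x⁻¹)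
    · have h6 := QuotientGroup.subsingleton_quotient_top (G := stb (lmu τ₀ lam) ⧸ ⁅(⊤ : Subgroup (stb (lmu τ₀ lam))), (⊤ : Subgroup (stb (lmu τ₀ lam)))⁆)
      exact Group.isNilpotent_of_subsingleton

end Run7.h988.DR
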