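import Mathlib
import Pool.Agent.Run7.h988.DR.Main

/-!
# Deligne's conjecture for the representations which are abelian over a normal subgroup: assembly
-/

set_option autoImplicit false
set_option linter.unusedSectionVars false

namespace Run7.h988.DR

open Pool.Agent.R389 Pool.Agent.H302R2 Pool.Agent.H302R3 Pool.Agent.H541R3.ART Pool.Agent.W446.AS Filter Topology

variable {G : Type} [Group G] [Finite G] {E : Type} [Field E]

/-- a linear character which does not occur has no part -/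
lemma part_rep_zero (τ₀ : E →+* ℂ) (N : Subgroup G) (lam : N →* Eˣ)
    {V : Type} [AddCommGroup V] [Module E V] [FiniteDimensional E V] (ρ : Representation E G V)
    (h : ∑ᶠ n : N, ρ.character n * (((lam n)⁻¹ : Eˣ) : E) = 0) :
    part N (lmu τ₀ lam) (fun g => τ₀ (ρ.character g)) = 0 := by
  classical
  have : Fintype N := Fintype.ofFinite N
  have hchar : CharZero E := RingHom.charZero τ₀
  have hcard : (Nat.card N : E) ≠ 0 := by
    have : Nat.card N ≠ 0 := Nat.card_pos.ne'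
    exact_mod_cast this
  let A : Module.End E V := (Nat.card N : E)⁻¹ • ∑ n : N, (((lam n)⁻¹ : Eˣ) : E) • ρ (n : G)
  let W : Submodule E V :=
    { carrier := {v | ∀ n : N, ρ n v = ((lam n : Eˣ) : E) • v}
      add_mem' := by
        intro a b ha hb n
        rw [map_add, ha n, hb n, smul_add]
      zero_mem' := by
        intro n
        rw [map_zero, smul_zero]
      smul_mem' := by
        intro c a ha n
        rw [map_smul, ha n, smul_comm] }
  have hW : ∀ v : V, v ∈ W ↔ ∀ n : N, ρ n v = ((lam n : Eˣ) : E) • v := fun v => Iff.rfl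
  have hA : LinearMap.IsProj W A := by
    refine ⟨fun v => ?_, fun v hv => ?_⟩
    · rw [hW]
      intro n
      have h5 : ρ n * ∑ y : N, (((lam y)⁻¹ : Eˣ) : E) • ρ (y : G)
          = ((lam n : Eˣ) : E) • ∑ y : N, (((lam y)⁻¹ : Eˣ) : E) • ρ (y : G) := by
        rw [Finset.mul_sum, ← Equiv.sum_comp (Equiv.mulLeft n)
          (fun y : N => (((lam y)⁻¹ : Eˣ) : E) • ρ (y : G)), Finset.smul_sum]
        refine Finset.sum_congr rfl fun y _ => ?_
        simp only [Equiv.coe_mulLeft, Subgroup.coe_mul]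
        rw [mul_smul_comm, ← map_mul, smul_smul, ← Units.val_mul, map_mul lam n y, mul_inv,
          mul_inv_cancel_left]
      have h6 : ρ n * A = ((lam n : Eˣ) : E) • A := by
        change ρ n * ((Nat.card N : E)⁻¹ • ∑ y : N, (((lam y)⁻¹ : Eˣ) : E) • ρ (y : G)) = _
        rw [mul_smul_comm, h5, smul_comm]
      rw [← Module.End.mul_apply, h6, LinearMap.smul_apply]
    · change ((Nat.card N : E)⁻¹ • ∑ n : N, (((lam n)⁻¹ : Eˣ) : E) • ρ (n : G)) v = v
      rw [LinearMap.smul_apply, LinearMap.sum_apply]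
      have h5 : ∀ n : N, ((((lam n)⁻¹ : Eˣ) : E) • ρ (n : G)) v = v := by
        intro n
        rw [LinearMap.smul_apply, (hW v).mp hv n, smul_smul, ← Units.val_mul, inv_mul_cancel, Units.val_one, one_smul]
      rw [Finset.sum_congr rfl (fun n _ => h5 n), Finset.sum_const, Finset.card_univ, ← Nat.card_eq_fintype_card,
        ← Nat.cast_smul_eq_nsmul E, smul_smul, inv_mul_cancel₀ hcard, one_smul]
  have hch : ∀ g : G, ∀ n : N, ρ.character (g * n) * (((lam n)⁻¹ : Eˣ) : E)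
      = LinearMap.trace E V (ρ g * ((((lam n)⁻¹ : Eˣ) : E) • ρ (n : G))) := by
    intro g n
    rw [mul_smul_comm, ← map_mul, map_smul, smul_eq_mul, mul_comm]
    rfl
  have htr : LinearMap.trace E V A = 0 := by
    change LinearMap.trace E V ((Nat.card N : E)⁻¹ • ∑ n : N, (((lam n)⁻¹ : Eˣ) : E) • ρ (n : G)) = 0
    rw [finsum_eq_sum_of_fintype] at h
    rw [map_smul, map_sum, smul_eq_mul]
    have h7 : ∀ n : N, LinearMap.trace E V ((((lam n)⁻¹ : Eˣ) : E) • ρ (n : G)) =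
        ρ.character n * (((lam n)⁻¹ : Eˣ) : E) := by
      intro n
      rw [map_smul, smul_eq_mul, mul_comm]
      rfl
    rw [Finset.sum_congr rfl (fun n _ => h7 n), h, mul_zero]
  have hfr := hA.trace
  rw [htr] at hfr
  have hrank : Module.finrank E W = 0 := by exact_mod_cast hfr.symm
  have hWbot : W = ⊥ := Submodule.finrank_eq_zero.mp hrank
  have hA0 : A = 0 := by
    refine LinearMap.ext fun v => ?_
    have h8 := hA.map_mem v
    rw [hWbot] at h8
    rw [LinearMap.zero_apply]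
    exact (Submodule.mem_bot E).mp h8
  funext g
  have h9 := partE_map (H := G) τ₀ N lam ρ.character g
  rw [← h9]
  unfold partE
  rw [finsum_eq_sum_of_fintype, Finset.sum_congr rfl (fun n _ => hch g n), ← map_sum, ← Finset.mul_sum, ← smul_eq_mul,
    ← map_smul, ← mul_smul_comm]
  change τ₀ (LinearMap.trace E V (ρ g * A)) = 0
  rw [hA0, mul_zero, map_zero, map_zero]

variable {L : (E →+* ℂ) → (G → ℂ) → ℂ → ℂ} {P : (E →+* ℂ) → (G → ℂ) → ℂ} {c : ℂ}

/-- induction over the orbits, the trivial character included -/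
lemma orb_induct' {N : Subgroup G} [N.Normal] {A : Type} [AddCommMonoid A] (S : AddSubmonoid A) (φ : (N →* ℂˣ) → A)
    (h : ∀ μ, ∑ ν ∈ orb μ, φ ν ∈ S) :
    ∀ (k : ℕ) (T : Finset (N →* ℂˣ)), T.card = k → (∀ μ ∈ T, orb μ ⊆ T) →
      ∑ ν ∈ T, φ ν ∈ S := by
  classical
  intro k
  induction k using Nat.strong_induction_on with
  | _ k ih =>
    intro T hT hst
    rcases T.eq_empty_or_nonempty with rfl | ⟨μ, hμ⟩
    · rw [Finset.sum_empty]; exact zero_mem _
    have hμo : μ ∈ orb μ := mem_orb.mpr ⟨1, cmu_one μ⟩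
    rw [← Finset.sum_sdiff (hst μ hμ)]
    refine add_mem (ih _ ?_ (T \ orb μ) rfl ?_) (h μ)
    · rw [← hT]
      exact Finset.card_lt_card (Finset.sdiff_ssubset (hst μ hμ) ⟨μ, hμo⟩)
    · intro ν hν ξ hξ
      obtain ⟨h2, h3⟩ := Finset.mem_sdiff.mp hν
      refine Finset.mem_sdiff.mpr ⟨hst ν h2 hξ, fun h4 => h3 ?_⟩
      obtain ⟨x, rfl⟩ := mem_orb.mp hξ
      obtain ⟨y, hy⟩ := mem_orb.mp h4
      refine mem_orb.mpr ⟨x⁻¹ * y, ?_⟩
      rw [cmu_mul, hy, ← cmu_mul, inv_mul_cancel, cmu_one]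

/-- **Representations which are abelian over `N`** -/
theorem main_abel {ζ : E} (hζ : IsPrimitiveRoot ζ (Monoid.exponent G))
    (hL : ∀ τ, ∀ χ ∈ Irr G, MeromorphicAt (L τ χ) c ∧ meromorphicOrderAt (L τ χ) c ≠ ⊤)
    (hP : ∀ τ, ∀ χ ∈ Irr G, P τ χ ≠ 0) (N : Subgroup G) [N.Normal]
    (hmon : ∀ (U : Subgroup G) (ψ : U →* Eˣ), N ≤ U →
      Deligne L P c (ind U (fun u => ((ψ u : Eˣ) : E)))) (τ₀ : E →+* ℂ)
    {V : Type} [AddCommGroup V] [Module E V] [FiniteDimensional E V] (ρ : Representation E G V)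
    (hρ : ∀ g, ∀ k ∈ ⁅N, N⁆, ρ.character (g * k) = ρ.character g)
    (hcases : ∀ lam : N →* Eˣ, ∑ᶠ n : N, ρ.character n * (((lam n)⁻¹ : Eˣ) : E) ≠ 0 →
      Group.IsNilpotent (stb (lmu τ₀ lam) ⧸ N.subgroupOf (stb (lmu τ₀ lam))) ∨
      (∃ τ₁ : E →+* ℂ, ∀ m : (G → ℂ) → ℕ, IsDecomp (ind N (fun x => ((lmu τ₁ lam x : ℂˣ) : ℂ))) m →
        meromorphicOrderAt (fun s => ∏ᶠ η ∈ Irr G, L τ₁ η s ^ m η) c ≤ 1) ∨
      (Group.IsSolvable (stb (lmu τ₀ lam)) ∧
        ∃ τ₁ : E →+* ℂ, ∀ m : (G → ℂ) → ℕ, IsDecomp (ind N (fun x => ((lmu τ₁ lam x : ℂˣ) : ℂ))) m →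
          ∀ p : ℕ, p.Prime → p ∣ Nat.card (stb (lmu τ₀ lam)) →
          meromorphicOrderAt (fun s => ∏ᶠ η ∈ Irr G, L τ₁ η s ^ m η) c < p)) :
    Deligne L P c ρ.character := by
  classical
  set f : G → ℂ := fun g => τ₀ (ρ.character g) with hfd
  have hf : f ∈ AddSubmonoid.closure (Irr G) := base_change τ₀ ρ
  have hfc : ∀ g x : G, f (x * g * x⁻¹) = f g := (virt_of_closure hf).conj
  have hfK : ∀ g, ∀ k ∈ ⁅N, N⁆, f (g * k) = f g := by
    intro g k hk
    exact congrArg τ₀ (hρ g k hk)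
  have : Fintype (N →* ℂˣ) := Fintype.ofFinite _
  have key : ∀ lam : N →* Eˣ, ∑ ν ∈ orb (lmu τ₀ lam), part N ν f ∈ Sub L P c hL hP τ₀ := by
    intro lam
    by_cases hz : ∑ᶠ n : N, ρ.character n * (((lam n)⁻¹ : Eˣ) : E) = 0
    · have h1 := part_rep_zero τ₀ N lam ρ hz
      have h2 : ∀ ν ∈ orb (lmu τ₀ lam), part N ν f = 0 := by
        intro ν hν
        obtain ⟨x, rfl⟩ := mem_orb.mp hν
        funext g
        rw [← part_conj (lmu τ₀ lam) hfc g x]
        exact congrFun h1 _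
      rw [Finset.sum_eq_zero h2]
      exact zero_mem _
    · rw [← Ph_orb τ₀ lam hfc]
      let σ : Representation E (stb (lmu τ₀ lam)) V := ρ.comp (stb (lmu τ₀ lam)).subtype
      rcases hcases lam hz with h | ⟨τ₁, h⟩ | ⟨hs, τ₁, h⟩
      · exact sub_nil hζ hL hP hmon τ₀ lam h (base_change τ₀ σ)
      · exact sub_one hζ hL hP hmon τ₀ τ₁ lam h σ
      · exact sub_small hζ hL hP hmon τ₀ τ₁ lam hs h σ
  have h1 : ∑ ν ∈ (Finset.univ : Finset (N →* ℂˣ)), part N ν f ∈ Sub L P c hL hP τ₀ := by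
    refine orb_induct' _ (fun μ => part N μ f) (fun μ => ?_) _ _ rfl (fun μ _ => Finset.subset_univ _)
    obtain ⟨lam, hlam⟩ := lift_char hζ τ₀ N μ
    have h2 : lmu τ₀ lam = μ := by
      refine MonoidHom.ext fun n => Units.ext ?_
      exact hlam n
    rw [← h2]
    exact key lam
  obtain ⟨F, e, h2, h3⟩ := h1
  have h4 : ρ.character = F := by
    funext g
    apply τ₀.injective
    rw [h2, Finset.sum_apply, sum_part N hfK]
  rw [h4]
  exact h3.deligne

end Run7.h988.DR
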