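import Mathlib
import Pool.Agent.Run7.h988.DR.Fin

/-!
# Deligne's conjecture along a tower of normal subgroups with abelian layers
-/

set_option autoImplicit false
set_option linter.unusedSectionVars false

namespace Run7.h988.DR

open Pool.Agent.R389 Pool.Agent.H302R2 Pool.Agent.H302R3 Pool.Agent.H541R3.ART Pool.Agent.W446.AS Filter Topology

variable {G : Type} [Group G] [Finite G] {E : Type} [Field E]

section parts

variable (N M : Subgroup G)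

/-- the part of an average -/
lemma part_inv (hMN : M ≤ N) (μ : N →* ℂˣ) (f : G → ℂ) (g : G) :
    part N μ (inv M f) g =
      ((Nat.card M : ℂ)⁻¹ * ∑ᶠ m : M, ((μ ⟨m, hMN m.2⟩ : ℂˣ) : ℂ)) * part N μ f g := by
  classical
  have : Fintype N := Fintype.ofFinite N
  have : Fintype M := Fintype.ofFinite M
  rw [part_eq, part_eq, finsum_eq_sum_of_fintype]
  have h1 : ∀ n : N, inv M f (g * n) * (((μ n)⁻¹ : ℂˣ) : ℂ) =
      (Nat.card M : ℂ)⁻¹ * ∑ m : M, f (g * n * m) * (((μ n)⁻¹ : ℂˣ) : ℂ) := by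
    intro n
    rw [inv_eq, mul_assoc, Finset.sum_mul]
  rw [Finset.sum_congr rfl (fun n _ => h1 n), ← Finset.mul_sum, Finset.sum_comm]
  have h2 : ∀ m : M, ∑ n : N, f (g * n * m) * (((μ n)⁻¹ : ℂˣ) : ℂ) =
      ((μ ⟨m, hMN m.2⟩ : ℂˣ) : ℂ) * ∑ n : N, f (g * n) * (((μ n)⁻¹ : ℂˣ) : ℂ) := by
    intro m
    rw [← Equiv.sum_comp (Equiv.mulRight (⟨m, hMN m.2⟩ : N)⁻¹) (fun n : N => f (g * n * m) * (((μ n)⁻¹ : ℂˣ) : ℂ)),
      Finset.mul_sum]
    refine Finset.sum_congr rfl fun n _ => ?_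
    rw [Equiv.coe_mulRight, map_mul, map_inv, mul_inv, inv_inv, Units.val_mul]
    have h3 : g * ((n * (⟨m, hMN m.2⟩ : N)⁻¹ : N) : G) * m = g * n := by
      rw [Subgroup.coe_mul, Subgroup.coe_inv]
      group
    rw [h3]
    ring
  rw [Finset.sum_congr rfl (fun m _ => h2 m), ← Finset.sum_mul]
  ring

/-- orthogonality -/
lemma av_mu (hMN : M ≤ N) (μ : N →* ℂˣ) (h : ∃ m, ∃ hm : m ∈ M, μ ⟨m, hMN hm⟩ ≠ 1) :
    ∑ᶠ m : M, ((μ ⟨m, hMN m.2⟩ : ℂˣ) : ℂ) = 0 := by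
  classical
  have : Fintype M := Fintype.ofFinite M
  rw [finsum_eq_sum_of_fintype]
  let φ : M →* ℂ := (Units.coeHom ℂ).comp (μ.comp (Subgroup.inclusion hMN))
  have hφ : φ ≠ 1 := by
    obtain ⟨m, hm, hne⟩ := h
    intro h1
    apply hne
    apply Units.ext
    exact DFunLike.congr_fun h1 (⟨m, hm⟩ : M)
  exact sum_hom_units_eq_zero φ hφ

open Classical in
/-- the average over `M` as a sum of parts -/
lemma inv_layer [Fintype (N →* ℂˣ)] (hMN : M ≤ N) (hab : ⁅N, N⁆ ≤ M) (f : G → ℂ) (g : G) :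
    inv M f g = ∑ μ ∈ (Finset.univ : Finset (N →* ℂˣ)).filter
      (fun μ => ∀ m, ∀ hm : m ∈ M, μ ⟨m, hMN hm⟩ = 1), part N μ f g := by
  have hf : ∀ g, ∀ k ∈ ⁅N, N⁆, inv M f (g * k) = inv M f g := fun g k hk => inv_mul_mem M f g (hab hk)
  rw [← sum_part N hf g, Finset.sum_filter]
  refine Finset.sum_congr rfl fun μ _ => ?_
  rw [part_inv N M hMN]
  by_cases h : ∀ m, ∀ hm : m ∈ M, μ ⟨m, hMN hm⟩ = 1
  · rw [if_pos h]
    have : Fintype M := Fintype.ofFinite M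
    have h1 : ∀ m : M, ((μ ⟨m, hMN m.2⟩ : ℂˣ) : ℂ) = 1 := fun m => by rw [h m m.2]; rfl
    rw [finsum_eq_sum_of_fintype, Finset.sum_congr rfl (fun m _ => h1 m), Finset.sum_const, Finset.card_univ,
      ← Nat.card_eq_fintype_card, nsmul_eq_mul, mul_one, inv_mul_cancel₀ card_ne, one_mul]
  · rw [if_neg h]
    push Not at h
    rw [av_mu N M hMN μ h, mul_zero, zero_mul]

end parts

variable {L : (E →+* ℂ) → (G → ℂ) → ℂ → ℂ} {P : (E →+* ℂ) → (G → ℂ) → ℂ} {c : ℂ}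

/-- the condition on a linear character of a normal subgroup -/
def Cnd (L : (E →+* ℂ) → (G → ℂ) → ℂ → ℂ) (c : ℂ) (τ₀ : E →+* ℂ) {N : Subgroup G} [N.Normal] (lam : N →* Eˣ) : Prop :=
  Group.IsNilpotent (stb (lmu τ₀ lam) ⧸ N.subgroupOf (stb (lmu τ₀ lam))) ∨
    (∃ τ₁ : E →+* ℂ, ∀ m : (G → ℂ) → ℕ, IsDecomp (ind N (fun x => ((lmu τ₁ lam x : ℂˣ) : ℂ))) m →
      meromorphicOrderAt (fun s => ∏ᶠ η ∈ Irr G, L τ₁ η s ^ m η) c ≤ 1) ∨
    (Group.IsSolvable (stb (lmu τ₀ lam)) ∧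
      ∃ τ₁ : E →+* ℂ, ∀ m : (G → ℂ) → ℕ, IsDecomp (ind N (fun x => ((lmu τ₁ lam x : ℂˣ) : ℂ))) m →
        ∀ p : ℕ, p.Prime → p ∣ Nat.card (stb (lmu τ₀ lam)) →
        meromorphicOrderAt (fun s => ∏ᶠ η ∈ Irr G, L τ₁ η s ^ m η) c < p)

/-- the contribution of an orbit -/
lemma key_orb {ζ : E} (hζ : IsPrimitiveRoot ζ (Monoid.exponent G))
    (hL : ∀ τ, ∀ χ ∈ Irr G, MeromorphicAt (L τ χ) c ∧ meromorphicOrderAt (L τ χ) c ≠ ⊤)
    (hP : ∀ τ, ∀ χ ∈ Irr G, P τ χ ≠ 0) (N : Subgroup G) [N.Normal]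
    (hmon : ∀ (U : Subgroup G) (ψ : U →* Eˣ), N ≤ U →
      Deligne L P c (ind U (fun u => ((ψ u : Eˣ) : E)))) (τ₀ : E →+* ℂ)
    {V : Type} [AddCommGroup V] [Module E V] [FiniteDimensional E V] (ρ : Representation E G V)
    (lam : N →* Eˣ)
    (hc : ∑ᶠ n : N, ρ.character n * (((lam n)⁻¹ : Eˣ) : E) ≠ 0 → Cnd L c τ₀ lam) :
    ∑ ν ∈ orb (lmu τ₀ lam), part N ν (fun g => τ₀ (ρ.character g)) ∈ Sub L P c hL hP τ₀ := by
  classical
  have hfc : ∀ g x : G, (fun g => τ₀ (ρ.character g)) (x * g * x⁻¹) = (fun g => τ₀ (ρ.character g)) g :=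
    (virt_of_closure (base_change τ₀ ρ)).conj
  by_cases hz : ∑ᶠ n : N, ρ.character n * (((lam n)⁻¹ : Eˣ) : E) = 0
  · have h1 := part_rep_zero τ₀ N lam ρ hz
    have h2 : ∀ ν ∈ orb (lmu τ₀ lam), part N ν (fun g => τ₀ (ρ.character g)) = 0 := by
      intro ν hν
      obtain ⟨x, rfl⟩ := mem_orb.mp hν
      funext g
      rw [← part_conj (lmu τ₀ lam) hfc g x]
      exact congrFun h1 _
    rw [Finset.sum_eq_zero h2]
    exact zero_mem _
  · rw [← Ph_orb τ₀ lam hfc]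
    let σ : Representation E (stb (lmu τ₀ lam)) V := ρ.comp (stb (lmu τ₀ lam)).subtype
    rcases hc hz with h | ⟨τ₁, h⟩ | ⟨hs, τ₁, h⟩
    · exact sub_nil hζ hL hP hmon τ₀ lam h (base_change τ₀ σ)
    · exact sub_one hζ hL hP hmon τ₀ τ₁ lam h σ
    · exact sub_small hζ hL hP hmon τ₀ τ₁ lam hs h σ

/-- induction over the orbits in a stable set -/
lemma orb_induct'' {N : Subgroup G} [N.Normal] {A : Type} [AddCommMonoid A] (S : AddSubmonoid A) (φ : (N →* ℂˣ) → A) :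
    ∀ (k : ℕ) (T : Finset (N →* ℂˣ)), T.card = k → (∀ μ ∈ T, orb μ ⊆ T) →
      (∀ μ ∈ T, ∑ ν ∈ orb μ, φ ν ∈ S) → ∑ ν ∈ T, φ ν ∈ S := by
  classical
  intro k
  induction k using Nat.strong_induction_on with
  | _ k ih =>
    intro T hT hst h
    rcases T.eq_empty_or_nonempty with rfl | ⟨μ, hμ⟩
    · rw [Finset.sum_empty]; exact zero_mem _
    have hμo : μ ∈ orb μ := mem_orb.mpr ⟨1, cmu_one μ⟩
    rw [← Finset.sum_sdiff (hst μ hμ)]
    refine add_mem (ih _ ?_ (T \ orb μ) rfl ?_ (fun ν hν => h ν (Finset.mem_sdiff.mp hν).1)) (h μ hμ)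
    · rw [← hT]
      exact Finset.card_lt_card (Finset.sdiff_ssubset (hst μ hμ) ⟨μ, hμo⟩)
    · intro ν hν ξ hξ
      obtain ⟨h2, h3⟩ := Finset.mem_sdiff.mp hν
      refine Finset.mem_sdiff.mpr ⟨hst ν h2 hξ, fun h4 => h3 ?_⟩
      obtain ⟨x, rfl⟩ := mem_orb.mp hξ
      obtain ⟨y, hy⟩ := mem_orb.mp h4
      refine mem_orb.mpr ⟨x⁻¹ * y, ?_⟩
      rw [cmu_mul, hy, ← cmu_mul, inv_mul_cancel, cmu_one]

/-- one layer -/
lemma layer_step {ζ : E} (hζ : IsPrimitiveRoot ζ (Monoid.exponent G))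
    (hL : ∀ τ, ∀ χ ∈ Irr G, MeromorphicAt (L τ χ) c ∧ meromorphicOrderAt (L τ χ) c ≠ ⊤)
    (hP : ∀ τ, ∀ χ ∈ Irr G, P τ χ ≠ 0) (N M : Subgroup G) [N.Normal] [M.Normal] (hMN : M ≤ N) (hab : ⁅N, N⁆ ≤ M)
    (hmon : ∀ (U : Subgroup G) (ψ : U →* Eˣ), N ≤ U →
      Deligne L P c (ind U (fun u => ((ψ u : Eˣ) : E)))) (τ₀ : E →+* ℂ)
    {V : Type} [AddCommGroup V] [Module E V] [FiniteDimensional E V] (ρ : Representation E G V)
    (hc : ∀ lam : N →* Eˣ, lam ≠ 1 → (∀ m, ∀ hm : m ∈ M, lam ⟨m, hMN hm⟩ = 1) →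
      ∑ᶠ n : N, ρ.character n * (((lam n)⁻¹ : Eˣ) : E) ≠ 0 → Cnd L c τ₀ lam)
    (hN : inv N (fun g => τ₀ (ρ.character g)) ∈ Sub L P c hL hP τ₀) :
    inv M (fun g => τ₀ (ρ.character g)) ∈ Sub L P c hL hP τ₀ := by
  classical
  set f : G → ℂ := fun g => τ₀ (ρ.character g) with hfd
  have : Fintype (N →* ℂˣ) := Fintype.ofFinite _
  let T : Finset (N →* ℂˣ) := (Finset.univ.filter
      (fun μ : N →* ℂˣ => ∀ m, ∀ hm : m ∈ M, μ ⟨m, hMN hm⟩ = 1)).erase 1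
  have hT1 : (1 : N →* ℂˣ) ∈ Finset.univ.filter
      (fun μ : N →* ℂˣ => ∀ m, ∀ hm : m ∈ M, μ ⟨m, hMN hm⟩ = 1) := by
    rw [Finset.mem_filter]
    exact ⟨Finset.mem_univ _, fun m hm => rfl⟩
  have h1 : inv M f = inv N f + ∑ μ ∈ T, part N μ f := by
    funext g
    rw [Pi.add_apply, Finset.sum_apply, inv_layer N M hMN hab f g, ← part_one,
      Finset.add_sum_erase _ (fun μ => part N μ f g) hT1]
  rw [h1]
  refine add_mem hN (orb_induct'' _ (fun μ => part N μ f) _ T rfl ?_ ?_)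
  · intro μ hμ ν hν
    obtain ⟨x, rfl⟩ := mem_orb.mp hν
    obtain ⟨hμ1, hμ2⟩ := Finset.mem_erase.mp hμ
    rw [Finset.mem_filter] at hμ2
    refine Finset.mem_erase.mpr ⟨fun h => hμ1 ?_, Finset.mem_filter.mpr ⟨Finset.mem_univ _, fun m hm => ?_⟩⟩
    · have h2 : cmu x⁻¹ (cmu x μ) = cmu x⁻¹ 1 := by rw [h]
      rw [← cmu_mul, inv_mul_cancel, cmu_one] at h2
      rw [h2]
      ext n
      rw [cmu_apply, MonoidHom.one_apply, MonoidHom.one_apply]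
    · rw [cmu_apply]
      have h3 : x⁻¹ * m * x ∈ M := by
        have h4 := (inferInstance : M.Normal).conj_mem m hm x⁻¹
        rwa [inv_inv] at h4
      have h5 := hμ2.2 _ h3
      rw [← h5]
      congr 1
      apply Subtype.ext
      rw [MulAut.conjNormal_apply]
      change x⁻¹ * m * x⁻¹⁻¹ = x⁻¹ * m * x
      rw [inv_inv]
  · intro μ hμ
    obtain ⟨hμ1, hμ2⟩ := Finset.mem_erase.mp hμ
    rw [Finset.mem_filter] at hμ2
    obtain ⟨lam, hlam⟩ := lift_char hζ τ₀ N μ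
    have h2 : lmu τ₀ lam = μ := by
      refine MonoidHom.ext fun n => Units.ext ?_
      exact hlam n
    rw [← h2]
    refine key_orb hζ hL hP N hmon τ₀ ρ lam (hc lam ?_ ?_)
    · rintro rfl
      apply hμ1
      rw [← h2]
      ext n
      change τ₀ (1 : E) = 1
      exact map_one τ₀
    · intro m hm
      apply Units.ext
      apply τ₀.injective
      have h3 := hlam ⟨m, hMN hm⟩
      rw [hμ2.2 m hm] at h3
      rw [h3, Units.val_one, Units.val_one, map_one]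

/-- the bottom of the tower: one character -/
lemma base_cnd {ζ : E} (hζ : IsPrimitiveRoot ζ (Monoid.exponent G))
    (hL : ∀ τ, ∀ χ ∈ Irr G, MeromorphicAt (L τ χ) c ∧ meromorphicOrderAt (L τ χ) c ≠ ⊤)
    (hP : ∀ τ, ∀ χ ∈ Irr G, P τ χ ≠ 0) (N : Subgroup G) [N.Normal]
    (hmon : ∀ (U : Subgroup G) (ψ : U →* Eˣ), N ≤ U →
      Deligne L P c (ind U (fun u => ((ψ u : Eˣ) : E)))) (τ₀ : E →+* ℂ)
    {V : Type} [AddCommGroup V] [Module E V] [FiniteDimensional E V] (ρ : Representation E G V)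
    (hc : Cnd L c τ₀ (1 : N →* Eˣ)) :
    inv N (fun g => τ₀ (ρ.character g)) ∈ Sub L P c hL hP τ₀ := by
  classical
  have h1 := key_orb hζ hL hP N hmon τ₀ ρ 1 (fun _ => hc)
  have h2 : lmu τ₀ (1 : N →* Eˣ) = 1 := by
    ext k
    change τ₀ (1 : E) = 1
    exact map_one τ₀
  rw [h2] at h1
  have h3 : orb (1 : N →* ℂˣ) = {1} := by
    ext ν
    rw [mem_orb, Finset.mem_singleton]
    constructor
    · rintro ⟨x, rfl⟩
      ext k
      rw [cmu_apply, MonoidHom.one_apply, MonoidHom.one_apply]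
    · rintro rfl
      exact ⟨1, cmu_one 1⟩
  rw [h3, Finset.sum_singleton, part_one] at h1
  exact h1

/-- the bottom of the tower: all representations known -/
lemma base_hold 
    (hL : ∀ τ, ∀ χ ∈ Irr G, MeromorphicAt (L τ χ) c ∧ meromorphicOrderAt (L τ χ) c ≠ ⊤)
    (hP : ∀ τ, ∀ χ ∈ Irr G, P τ χ ≠ 0) (N : Subgroup G) [N.Normal]
    (hold : ∀ (W : Type) [AddCommGroup W] [Module E W] [FiniteDimensional E W]
      (σ : Representation E G W), (∀ k ∈ N, ∀ w, σ k w = w) → Deligne L P c σ.character) (τ₀ : E →+* ℂ)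
    {V : Type} [AddCommGroup V] [Module E V] [FiniteDimensional E V] (ρ : Representation E G V) :
    inv N (fun g => τ₀ (ρ.character g)) ∈ Sub L P c hL hP τ₀ := by
  classical
  obtain ⟨W, σ, hσ, hσc⟩ := isotypic τ₀ N 1 ρ
  obtain ⟨e₁, he₁⟩ := (hold W σ (fun k hk w => by
    have := hσ k hk w
    simpa using this)).delZ fun τ => decomp_of_closure (base_change τ σ)
  refine ⟨_, e₁, fun g => ?_, he₁⟩
  rw [hσc]
  have h2 : ((Units.map τ₀.toMonoidHom).comp (1 : G →* Eˣ)) = 1 := by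
    ext x
    simp
  rw [h2]
  change inv N (fun g => τ₀ (ρ.character g) * (((1 : G →* ℂˣ)⁻¹ g : ℂˣ) : ℂ)) g
    * (((1 : G →* ℂˣ) g : ℂˣ) : ℂ) = _
  simp

/-- **Towers with abelian layers** -/
theorem main_tower {ζ : E} (hζ : IsPrimitiveRoot ζ (Monoid.exponent G))
    (hL : ∀ τ, ∀ χ ∈ Irr G, MeromorphicAt (L τ χ) c ∧ meromorphicOrderAt (L τ χ) c ≠ ⊤)
    (hP : ∀ τ, ∀ χ ∈ Irr G, P τ χ ≠ 0) (n : ℕ) (N : ℕ → Subgroup G) [∀ i, (N i).Normal]
    (hdesc : ∀ i, N (i + 1) ≤ N i) (hab : ∀ i, ⁅N i, N i⁆ ≤ N (i + 1))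
    (hmon : ∀ (U : Subgroup G) (ψ : U →* Eˣ), N n ≤ U →
      Deligne L P c (ind U (fun u => ((ψ u : Eˣ) : E)))) (τ₀ : E →+* ℂ)
    {V : Type} [AddCommGroup V] [Module E V] [FiniteDimensional E V] (ρ : Representation E G V)
    (hρ : ∀ g, ∀ k ∈ N (n + 1), ρ.character (g * k) = ρ.character g)
    (hc0 : Cnd L c τ₀ (1 : N 0 →* Eˣ) ∨ ∀ (W : Type) [AddCommGroup W] [Module E W] [FiniteDimensional E W]
      (σ : Representation E G W), (∀ k ∈ N 0, ∀ w, σ k w = w) → Deligne L P c σ.character)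
    (hc : ∀ i ≤ n, ∀ lam : N i →* Eˣ, lam ≠ 1 → (∀ m, ∀ hm : m ∈ N (i + 1), lam ⟨m, hdesc i hm⟩ = 1) →
      ∑ᶠ n : N i, ρ.character n * (((lam n)⁻¹ : Eˣ) : E) ≠ 0 → Cnd L c τ₀ lam) :
    Deligne L P c ρ.character := by
  classical
  have hanti : Antitone N := antitone_nat_of_succ_le hdesc
  set f : G → ℂ := fun g => τ₀ (ρ.character g) with hfd
  have hmon' : ∀ i ≤ n, ∀ (U : Subgroup G) (ψ : U →* Eˣ), N i ≤ U →
      Deligne L P c (ind U (fun u => ((ψ u : Eˣ) : E))) := fun i hi U ψ hU => hmon U ψ ((hanti hi).trans hU)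
  have h0 : inv (N 0) f ∈ Sub L P c hL hP τ₀ := by
    rcases hc0 with h | h
    · exact base_cnd hζ hL hP (N 0) (hmon' 0 (Nat.zero_le n)) τ₀ ρ h
    · exact base_hold hL hP (N 0) h τ₀ ρ
  have hall : ∀ i, i ≤ n + 1 → inv (N i) f ∈ Sub L P c hL hP τ₀ := by
    intro i
    induction i with
    | zero => exact fun _ => h0
    | succ i ih =>
      intro hi
      have hi' : i ≤ n := by omega
      exact layer_step hζ hL hP (N i) (N (i + 1)) (hdesc i) (hab i) (hmon' i hi') τ₀ ρ (hc i hi') (ih (by omega))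
  obtain ⟨F, e, h2, h3⟩ := hall (n + 1) le_rfl
  have h4 : ρ.character = F := by
    funext g
    apply τ₀.injective
    rw [h2, inv_of_const (N (n + 1)) (f := f) (fun g k hk => congrArg τ₀ (hρ g k hk))]
  rw [h4]
  exact h3.deligne

end Run7.h988.DR
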